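import Pool.Agent.H69.OC.Targets

/-!
# The ring of faces around the path (module RING1)
-/

set_option autoImplicit false
set_option linter.unusedSectionVars false
open scoped Classical
open Finset

namespace Pool.Agent.H69.OC

namespace Rg

open DG

variable {V D : Type} [Fintype V] [Fintype D] {G : DG V D}

/-! ### Sums over faces -/

/-- indicator of the edge of `g` -/
noncomputable def one (G : DG V D) (g : D) (d : D) : ZMod 2 :=
  if d = g ∨ d = G.inv g then 1 else 0

theorem one_symm (g d : D) : one G g (G.inv d) = one G g d := by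
  unfold one
  have : (G.inv d = g ∨ G.inv d = G.inv g) ↔ (d = g ∨ d = G.inv g) := by
    constructor
    · rintro (h | h)
      · exact Or.inr (by rw [← h, G.inv_inv])
      · exact Or.inl (inv_inj h)
    · rintro (h | h)
      · exact Or.inr (by rw [h])
      · exact Or.inl (by rw [h, G.inv_inv])
  simp only [this]

theorem one_self (g : D) : one G g g = 1 := by simp [one]

theorem one_zero {g d : D} (h1 : d ≠ g) (h2 : d ≠ G.inv g) : one G g d = 0 := by
  simp [one, h1, h2]

/-- face sums -/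
noncomputable def FS (A : Finset D) (f : D → ℕ) (x : D → ZMod 2) (k : ℕ) : ZMod 2 :=
  ∑ d ∈ sel A (fun d => f d = k), x d

/-- indicator of a face -/
noncomputable def dl (a k : ℕ) : ZMod 2 := if a = k then 1 else 0

theorem FS_one {A : Finset D} (hA : G.Cl A) (f : D → ℕ) {g : D} (hg : g ∈ A) (k : ℕ) :
    FS A f (one G g) k = dl (f g) k + dl (f (G.inv g)) k := by
  unfold FS
  have h1 : ∀ d, one G g d = (if d = g then (1 : ZMod 2) else 0) +
      (if d = G.inv g then (1 : ZMod 2) else 0) := by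
    intro d
    have hne := G.inv_ne g
    unfold one
    by_cases a1 : d = g
    · subst a1
      simp [hne.symm]
    · simp [a1]
  have h2 : ∀ c ∈ A, (∑ d ∈ sel A (fun d => f d = k), if d = c then (1 : ZMod 2) else 0) =
      dl (f c) k := by
    intro c hc
    rw [sum_ite_eq']
    unfold dl
    have : c ∈ sel A (fun d => f d = k) ↔ f c = k := by
      rw [mem_sel]
      tauto
    simp only [this]
  simp only [h1]
  rw [sum_add_distrib, h2 g hg, h2 _ (hA _ hg)]

theorem FS_add {A : Finset D} (f : D → ℕ) (x y : D → ZMod 2) (k : ℕ) :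
    FS A f (fun d => x d + y d) k = FS A f x k + FS A f y k := by
  unfold FS
  rw [sum_add_distrib]

/-- the legs between `i` and `j` satisfying `P` -/
noncomputable def lg (G : DG V D) (h : ℕ → D) (P : ℕ → Prop) (i j : ℕ) (d : D) : ZMod 2 :=
  ∑ m ∈ sel (Ioc i j) P, one G (h m) d

theorem lg_symm (h : ℕ → D) (P : ℕ → Prop) (i j : ℕ) (d : D) :
    lg G h P i j (G.inv d) = lg G h P i j d := by
  unfold lg
  exact sum_congr rfl fun m _ => one_symm _ _

theorem lg_succ_pos (h : ℕ → D) (P : ℕ → Prop) {i j : ℕ} (hij : i ≤ j) (hP : P (j + 1)) (d : D) :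
    lg G h P i (j + 1) d = lg G h P i j d + one G (h (j + 1)) d := by
  unfold lg
  have h1 : sel (Ioc i (j + 1)) P = insert (j + 1) (sel (Ioc i j) P) := by
    ext m
    rw [mem_insert, mem_sel, mem_sel, mem_Ioc, mem_Ioc]
    constructor
    · rintro ⟨⟨h1, h2⟩, h3⟩
      by_cases h4 : m = j + 1
      · exact Or.inl h4
      · exact Or.inr ⟨⟨h1, by omega⟩, h3⟩
    · rintro (h1 | ⟨⟨h1, h2⟩, h3⟩)
      · subst h1
        exact ⟨⟨by omega, le_refl _⟩, hP⟩
      · exact ⟨⟨h1, by omega⟩, h3⟩
  rw [h1, sum_insert, add_comm]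
  rw [mem_sel, mem_Ioc]
  rintro ⟨⟨_, h2⟩, _⟩
  omega

theorem lg_succ_neg (h : ℕ → D) (P : ℕ → Prop) {i j : ℕ} (hP : ¬ P (j + 1)) (d : D) :
    lg G h P i (j + 1) d = lg G h P i j d := by
  unfold lg
  have h1 : sel (Ioc i (j + 1)) P = sel (Ioc i j) P := by
    ext m
    rw [mem_sel, mem_sel, mem_Ioc, mem_Ioc]
    constructor
    · rintro ⟨⟨h1, h2⟩, h3⟩
      refine ⟨⟨h1, ?_⟩, h3⟩
      by_contra h4
      have : m = j + 1 := by omega
      exact hP (this ▸ h3)
    · rintro ⟨⟨h1, h2⟩, h3⟩
      exact ⟨⟨h1, by omega⟩, h3⟩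
  rw [h1]

/-- the legs of the kind `P` separate consecutive faces `q m` -/
def Chain (G : DG V D) (f : D → ℕ) (n : ℕ) (h : ℕ → D) (P : ℕ → Prop) (q : ℕ → ℕ) : Prop :=
  ∀ m, 0 < m → m < n → (P m → ((f (h m) = q (m - 1) ∧ f (G.inv (h m)) = q m) ∨
    (f (h m) = q m ∧ f (G.inv (h m)) = q (m - 1)))) ∧ (¬ P m → q m = q (m - 1))

theorem FS_lg {A : Finset D} (hA : G.Cl A) {f : D → ℕ} {n : ℕ} {h : ℕ → D} {P : ℕ → Prop}
    {q : ℕ → ℕ} (hch : Chain G f n h P q) (hhA : ∀ m ≤ n, h m ∈ A) {i j : ℕ} (hij : i ≤ j)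
    (hj : j < n) (k : ℕ) : FS A f (lg G h P i j) k = dl (q i) k + dl (q j) k := by
  induction j, hij using Nat.le_induction with
  | base =>
    rw [CharTwo.add_self_eq_zero]
    unfold FS lg
    apply sum_eq_zero
    intro d _
    have : sel (Ioc i i) P = ∅ := by
      ext m
      rw [mem_sel]
      simp
    rw [this, sum_empty]
  | succ j hij ih =>
    have ih' := ih (by omega)
    obtain ⟨c1, c2⟩ := hch (j + 1) (by omega) hj
    by_cases hP : P (j + 1)
    · have e : FS A f (lg G h P i (j + 1)) k =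
          FS A f (fun d => lg G h P i j d + one G (h (j + 1)) d) k := by
        unfold FS
        exact sum_congr rfl fun d _ => lg_succ_pos h P hij hP d
      rw [e, FS_add, ih', FS_one hA f (hhA _ hj.le)]
      have h2 := CharTwo.add_self_eq_zero (dl (q j) k)
      rcases c1 hP with ⟨a1, a2⟩ | ⟨a1, a2⟩
      · rw [a1, a2]
        simp only [Nat.add_sub_cancel]
        linear_combination h2
      · rw [a1, a2]
        simp only [Nat.add_sub_cancel]
        linear_combination h2
    · have e : FS A f (lg G h P i (j + 1)) k = FS A f (lg G h P i j) k := by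
        unfold FS
        exact sum_congr rfl fun d _ => lg_succ_neg h P hP d
      rw [e, ih', c2 hP]
      simp only [Nat.add_sub_cancel]

/-! ### The complement of the path -/

theorem compl_const {X W : Finset V} (hBB : G.BB Xᶜ)
    (hd : ∀ d, G.src d ∉ X → G.tgt d ∉ X → ind W (G.src d) + ind W (G.tgt d) = 0) :
    ∃ a : ZMod 2, ∀ w, w ∉ X → ind W w = a := by
  by_cases h0 : ∀ w, w ∉ X → w ∉ W
  · exact ⟨0, fun w hw => by simp [ind, h0 w hw]⟩
  by_cases h1 : ∀ w, w ∉ X → w ∈ W
  · exact ⟨1, fun w hw => by simp [ind, h1 w hw]⟩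
  exfalso
  push Not at h0 h1
  obtain ⟨w0, a0, b0⟩ := h0
  obtain ⟨w1, a1, b1⟩ := h1
  have h2 := hBB (sel Xᶜ fun w => w ∈ W) (sel_sub _ _)
    ⟨w0, mem_sel.2 ⟨mem_compl.2 a0, b0⟩⟩ (by
      intro h
      have h3 : w1 ∈ Xᶜ := mem_compl.2 a1
      rw [← h, mem_sel] at h3
      exact b1 h3.2)
  have h3 : 0 < (G.ee (sel Xᶜ fun w => w ∈ W) (Xᶜ \ sel Xᶜ fun w => w ∈ W)).card := by omega
  obtain ⟨d, hd'⟩ := card_pos.1 h3
  rw [mem_ee, mem_sel, mem_sdiff, mem_sel, mem_compl, mem_compl] at hd'
  obtain ⟨⟨x1, x2⟩, x3, x4⟩ := hd'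
  have h4 := ind_add_ind.1 (hd d x1 x3)
  exact x4 ⟨x3, h4.1 x2⟩

theorem compl_one {X W : Finset V} (hBB : G.BB Xᶜ) {d0 : D} (s0 : G.src d0 ∉ X)
    (t0 : G.tgt d0 ∉ X)
    (hd : ∀ d, G.src d ∉ X → G.tgt d ∉ X → d ≠ d0 → d ≠ G.inv d0 →
      ind W (G.src d) + ind W (G.tgt d) = 0)
    (h1 : ind W (G.src d0) + ind W (G.tgt d0) = 1) : False := by
  have h1' := ind_add_ind_one.1 h1
  have h2 := hBB (sel Xᶜ fun w => w ∈ W) (sel_sub _ _) (by
      by_cases h : G.src d0 ∈ W
      · exact ⟨_, mem_sel.2 ⟨mem_compl.2 s0, h⟩⟩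
      · exact ⟨G.tgt d0, mem_sel.2 ⟨mem_compl.2 t0, by tauto⟩⟩) (by
      intro h
      have h3 : G.src d0 ∈ Xᶜ := mem_compl.2 s0
      have h4 : G.tgt d0 ∈ Xᶜ := mem_compl.2 t0
      rw [← h, mem_sel] at h3 h4
      tauto)
  have h3 : (G.ee (sel Xᶜ fun w => w ∈ W) (Xᶜ \ sel Xᶜ fun w => w ∈ W)).card ≤ 1 := by
    rw [card_le_one]
    have key : ∀ d ∈ G.ee (sel Xᶜ fun w => w ∈ W) (Xᶜ \ sel Xᶜ fun w => w ∈ W),
        G.src d ∈ W ∧ G.tgt d ∉ W ∧ (d = d0 ∨ d = G.inv d0) := by
      intro d hd'
      rw [mem_ee, mem_sel, mem_sdiff, mem_sel, mem_compl, mem_compl] at hd'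
      obtain ⟨⟨x1, x2⟩, x3, x4⟩ := hd'
      have x5 : G.tgt d ∉ W := fun h => x4 ⟨x3, h⟩
      refine ⟨x2, x5, ?_⟩
      by_contra hcon
      push Not at hcon
      have h4 := ind_add_ind.1 (hd d x1 x3 hcon.1 hcon.2)
      exact x5 (h4.1 x2)
    intro a ha b hb
    obtain ⟨a1, a2, a3⟩ := key a ha
    obtain ⟨b1, b2, b3⟩ := key b hb
    rcases a3 with rfl | rfl <;> rcases b3 with rfl | rfl
    · rfl
    · rw [tgt_inv] at b2
      exact absurd a1 b2
    · rw [tgt_inv] at a2
      exact absurd b1 a2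
    · rfl
  omega

/-! ### Vertices -/

/-- the third dart of a vertex -/
theorem third (hG : G.Cub) {w : V} {a b : D} (ha : G.src a = w) (hb : G.src b = w) (hab : a ≠ b) :
    ∃ h, G.src h = w ∧ h ≠ a ∧ h ≠ b ∧ ∀ d, G.src d = w → d = a ∨ d = b ∨ d = h := by
  have h3 := hG w
  have h1 : ({a, b} : Finset D) ⊆ sel univ fun d => G.src d = w := by
    intro d hd
    rw [mem_insert, mem_singleton] at hd
    rw [mem_sel]
    rcases hd with rfl | rfl
    · exact ⟨mem_univ _, ha⟩
    · exact ⟨mem_univ _, hb⟩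
  have h2 := card_sdiff_add_card_eq_card h1
  rw [h3, card_pair hab] at h2
  have h4 : ((sel univ fun d => G.src d = w) \ {a, b}).card = 1 := by omega
  obtain ⟨h, hh⟩ := card_eq_one.1 h4
  have hmem : ∀ d, (G.src d = w ∧ d ≠ a ∧ d ≠ b) ↔ d = h := by
    intro d
    have h6 : d ∈ (sel univ fun d => G.src d = w) \ {a, b} ↔ d = h := by
      rw [hh, mem_singleton]
    rw [← h6, mem_sdiff, mem_sel, mem_insert, mem_singleton, not_or]
    simp
  have h5 := (hmem h).2 rfl
  refine ⟨h, h5.1, h5.2.1, h5.2.2, fun d hd => ?_⟩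
  by_cases x1 : d = a
  · exact Or.inl x1
  by_cases x2 : d = b
  · exact Or.inr (Or.inl x2)
  exact Or.inr (Or.inr ((hmem d).1 ⟨hd, x1, x2⟩))

/-- the label on the left of `inv d` leaves the vertex through another dart -/
theorem out_of_in {A : Finset D} {f : D → ℕ} {w : V} (hb : G.BalAt A f w) {d : D} (hd : d ∈ A)
    (hs : G.src d = w) : ∃ c ∈ A, G.src c = w ∧ f c = f (G.inv d) := by
  have h1 := hb (f (G.inv d))
  have h2 : d ∈ sel A fun c => G.src c = w ∧ f (G.inv c) = f (G.inv d) := mem_sel.2 ⟨hd, hs, rfl⟩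
  have h3 : 0 < (sel A fun c => G.src c = w ∧ f c = f (G.inv d)).card := by
    rw [h1]
    exact card_pos.2 ⟨_, h2⟩
  obtain ⟨c, hc⟩ := card_pos.1 h3
  rw [mem_sel] at hc
  exact ⟨c, hc⟩

/-- two darts -/
theorem two_shift {A : Finset D} {f : D → ℕ} {w : V} (hb : G.BalAt A f w)
    (hp : ∀ d ∈ A, f d ≠ f (G.inv d)) {a b : D} (ha : a ∈ A) (hbA : b ∈ A) (sa : G.src a = w)
    (sb : G.src b = w) (only : ∀ d ∈ A, G.src d = w → d = a ∨ d = b) :
    f (G.inv a) = f b ∧ f (G.inv b) = f a := by
  constructor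
  · obtain ⟨c, c1, c2, c3⟩ := out_of_in hb ha sa
    rcases only c c1 c2 with rfl | rfl
    · exact absurd c3 (hp _ ha)
    · exact c3.symm
  · obtain ⟨c, c1, c2, c3⟩ := out_of_in hb hbA sb
    rcases only c c1 c2 with rfl | rfl
    · exact c3.symm
    · exact absurd c3 (hp _ hbA)

/-- three darts -/
theorem three_shift {A : Finset D} {f : D → ℕ} {w : V} (hb : G.BalAt A f w)
    (hdeg : (sel A fun d => G.src d = w).card ≤ 3)
    (hp : ∀ d ∈ A, f d ≠ f (G.inv d)) {a b h : D} (ha : a ∈ A) (hbA : b ∈ A) (hh : h ∈ A)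
    (sa : G.src a = w) (sb : G.src b = w) (sh : G.src h = w)
    (only : ∀ d ∈ A, G.src d = w → d = a ∨ d = b ∨ d = h) (nab : a ≠ b) (nah : a ≠ h)
    (nbh : b ≠ h) :
    (f (G.inv a) = f b ∧ f (G.inv b) = f h ∧ f (G.inv h) = f a) ∨
      (f (G.inv a) = f h ∧ f (G.inv b) = f a ∧ f (G.inv h) = f b) := by
  have hinj : ∀ d ∈ A, ∀ d' ∈ A, G.src d = w → G.src d' = w → f (G.inv d) = f (G.inv d') →
      d = d' := fun d h1 d' h2 h3 h4 h5 =>
    bal_inj' hdeg hb (fun d hd _ => hp d hd) h1 h2 h3 h4 h5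
  have xa : f (G.inv a) = f b ∨ f (G.inv a) = f h := by
    obtain ⟨c, c1, c2, c3⟩ := out_of_in hb ha sa
    rcases only c c1 c2 with rfl | rfl | rfl
    · exact absurd c3 (hp _ ha)
    · exact Or.inl c3.symm
    · exact Or.inr c3.symm
  have xb : f (G.inv b) = f a ∨ f (G.inv b) = f h := by
    obtain ⟨c, c1, c2, c3⟩ := out_of_in hb hbA sb
    rcases only c c1 c2 with rfl | rfl | rfl
    · exact Or.inl c3.symm
    · exact absurd c3 (hp _ hbA)
    · exact Or.inr c3.symm
  have xh : f (G.inv h) = f a ∨ f (G.inv h) = f b := by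
    obtain ⟨c, c1, c2, c3⟩ := out_of_in hb hh sh
    rcases only c c1 c2 with rfl | rfl | rfl
    · exact Or.inl c3.symm
    · exact Or.inr c3.symm
    · exact absurd c3 (hp _ hh)
  rcases xa with xa | xa
  · left
    have h1 : f (G.inv h) = f a := by
      refine xh.resolve_right fun h1 => ?_
      exact nah (hinj a ha h hh sa sh (xa.trans h1.symm))
    refine ⟨xa, xb.resolve_left fun h2 => ?_, h1⟩
    exact nbh (hinj b hbA h hh sb sh (h2.trans h1.symm))
  · right
    have h1 : f (G.inv b) = f a := by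
      refine xb.resolve_right fun h1 => ?_
      exact nab (hinj a ha b hbA sa sb (xa.trans h1.symm))
    refine ⟨xa, h1, xh.resolve_left fun h2 => ?_⟩
    exact nbh (hinj b hbA h hh sb sh (h1.trans h2.symm))

/-- no dual loops in `G - e` -/
theorem no_loop (hC : G.C3) {e : D} {f : D → ℕ} (hE : G.Eul (univ \ {e, G.inv e}) f) {d : D}
    (hd : d ∈ univ \ {e, G.inv e}) : f d ≠ f (G.inv d) := by
  intro h
  have hA : G.Cl (univ \ {e, G.inv e}) := cl_sdiff_pair cl_univ e
  obtain ⟨W, hW, hc⟩ := hE.family hA (I := {0}) (k := fun _ => d) (by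
    intro i hi j hj _
    rw [mem_singleton] at hi hj
    rw [hi, hj]) (fun _ _ => hd) (by
    intro c
    have : (sel ({0} : Finset ℕ) fun _ => f d = c) = sel {0} fun _ => f (G.inv d) = c := by
      rw [h]
    rw [this]
    exact ⟨_, rfl⟩)
  rw [card_singleton] at hc
  obtain ⟨g, hg⟩ := card_eq_one.1 hc
  have hg' : g ∈ G.cut (univ \ {e, G.inv e}) W := by
    rw [hg]
    exact mem_singleton_self _
  rw [mem_cut] at hg'
  have h1 := hC W ⟨_, hg'.2.1⟩ (by
    rintro rfl
    exact hg'.2.2 (mem_univ _))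
  have h2 : (G.cut univ W).card ≤ 2 := by
    by_cases he : G.src e ∈ W
    · have : G.cut univ W ⊆ {g, e} := by
        intro c hcc
        rw [mem_cut] at hcc
        rw [mem_insert, mem_singleton]
        by_cases x1 : c = e
        · exact Or.inr x1
        by_cases x2 : c = G.inv e
        · subst x2
          rw [tgt_inv] at hcc
          exact absurd he hcc.2.2
        left
        rw [← mem_singleton, ← hg, mem_cut]
        refine ⟨?_, hcc.2⟩
        simp [x1, x2]
      exact le_trans (card_le_card this) card_le_two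
    · have : G.cut univ W ⊆ {g, G.inv e} := by
        intro c hcc
        rw [mem_cut] at hcc
        rw [mem_insert, mem_singleton]
        by_cases x2 : c = G.inv e
        · exact Or.inr x2
        by_cases x1 : c = e
        · subst x1
          exact absurd hcc.2.1 he
        left
        rw [← mem_singleton, ← hg, mem_cut]
        refine ⟨?_, hcc.2⟩
        simp [x1, x2]
      exact le_trans (card_le_card this) card_le_two
  omega

/-! ### The path -/

section Path

variable {e : D} {f : D → ℕ} {X : Finset V} {n : ℕ} {v : ℕ → V} {c : ℕ → D}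

/-- the legs -/
theorem exists_legs (hG : G.Cub) (hP : IsPath G e X n v c) :
    ∃ h : ℕ → D, ∀ i ≤ n, (G.src (h i) = v i ∧ G.tgt (h i) ∉ X ∧ h i ≠ e ∧ h i ≠ G.inv e) ∧
      (i = 0 → h i ≠ c 0 ∧ ∀ d, G.src d = v 0 → d = e ∨ d = c 0 ∨ d = h i) ∧
      (0 < i → i < n → h i ≠ G.inv (c (i - 1)) ∧ h i ≠ c i ∧
        ∀ d, G.src d = v i → d = G.inv (c (i - 1)) ∨ d = c i ∨ d = h i) ∧
      (i = n → h i ≠ G.inv (c (n - 1)) ∧
        ∀ d, G.src d = v n → d = G.inv e ∨ d = G.inv (c (n - 1)) ∨ d = h i) := by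
  have hpos := hP.pos
  have v0n : v 0 ≠ v n := fun h => by
    have := hP.inj 0 (by omega) n (le_refl _) h
    omega
  -- a dart at `v i` which is not on the path leads out of `X`
  have hout : ∀ i ≤ n, ∀ g, G.src g = v i → g ≠ e → g ≠ G.inv e →
      (∀ j < n, g = c j → j = i → False) → (∀ j < n, g = G.inv (c j) → j + 1 = i → False) →
      G.tgt g ∉ X := by
    intro i hi g hs h1 h2 h3 h4 h5
    have h6 : G.src g ∈ X := (hP.mem _).2 ⟨i, hi, hs⟩
    obtain ⟨j, hj, h7 | h7⟩ := hP.ind g h1 h2 h6 h5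
    · apply h3 j hj h7
      apply hP.inj j hj.le i hi
      rw [← hs, h7]
      exact (hP.hc j hj).2.2.1.symm
    · apply h4 j hj h7
      apply hP.inj (j + 1) hj i hi
      rw [← hs, h7]
      exact (hP.hc j hj).2.2.2.symm
  have hsc : ∀ i < n, G.src (c i) = v i := fun i hi => (hP.hc i hi).2.2.1
  have htc : ∀ i < n, G.src (G.inv (c i)) = v (i + 1) := fun i hi => (hP.hc i hi).2.2.2
  have key : ∀ i, ∃ h : D, i ≤ n →
      ((G.src h = v i ∧ G.tgt h ∉ X ∧ h ≠ e ∧ h ≠ G.inv e) ∧
      (i = 0 → h ≠ c 0 ∧ ∀ d, G.src d = v 0 → d = e ∨ d = c 0 ∨ d = h) ∧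
      (0 < i → i < n → h ≠ G.inv (c (i - 1)) ∧ h ≠ c i ∧
        ∀ d, G.src d = v i → d = G.inv (c (i - 1)) ∨ d = c i ∨ d = h) ∧
      (i = n → h ≠ G.inv (c (n - 1)) ∧
        ∀ d, G.src d = v n → d = G.inv e ∨ d = G.inv (c (n - 1)) ∨ d = h)) := by
    intro i
    by_cases hi : i ≤ n
    swap
    · exact ⟨c 0, fun h => absurd h hi⟩
    by_cases hi0 : i = 0
    · subst hi0
      obtain ⟨h, h1, h2, h3, h4⟩ := third hG (a := e) (b := c 0) hP.v0.symm (hsc 0 hpos)
        (hP.hc 0 hpos).1.symm
      have h5 : h ≠ G.inv e := by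
        rintro rfl
        apply v0n
        rw [← h1, hP.vn]
        rfl
      refine ⟨h, fun _ => ⟨⟨h1, ?_, h2, h5⟩, fun _ => ⟨h3, h4⟩, fun h => absurd h (lt_irrefl _),
        fun h => absurd h hpos.ne⟩⟩
      apply hout 0 hi h h1 h2 h5
      · rintro j hj h6 rfl
        exact h3 h6
      · rintro j hj h6 h7
        omega
    by_cases hin : i = n
    · subst hin
      have hn1 : i - 1 < i := by omega
      have hn2 : i - 1 + 1 = i := by omega
      have s1 : G.src (G.inv (c (i - 1))) = v i := by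
        have := htc (i - 1) hn1
        rwa [hn2] at this
      obtain ⟨h, h1, h2, h3, h4⟩ := third hG (a := G.inv e) (b := G.inv (c (i - 1)))
        hP.vn.symm s1 (fun h => (hP.hc _ hn1).1 (inv_inj h).symm)
      have h5 : h ≠ e := by
        rintro rfl
        apply v0n
        rw [← h1, hP.v0]
      refine ⟨h, fun _ => ⟨⟨h1, ?_, h5, h2⟩, fun h => absurd h hi0,
        fun _ h => absurd h (lt_irrefl _), fun _ => ⟨h3, h4⟩⟩⟩
      apply hout i hi h h1 h5 h2
      · rintro j hj h6 rfl
        omega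
      · rintro j hj h6 h7
        have : j = i - 1 := by omega
        rw [this] at h6
        exact h3 h6
    have hi1 : 0 < i := by omega
    have hi2 : i < n := by omega
    have hn1 : i - 1 < n := by omega
    have hn2 : i - 1 + 1 = i := by omega
    have s1 : G.src (G.inv (c (i - 1))) = v i := by
      have := htc (i - 1) hn1
      rwa [hn2] at this
    obtain ⟨h, h1, h2, h3, h4⟩ := third hG (a := G.inv (c (i - 1))) (b := c i) s1 (hsc i hi2) (by
      intro h
      have h5 : G.tgt (c i) = v (i - 1) := by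
        rw [← h, tgt_inv]
        exact hsc _ hn1
      rw [(hP.hc i hi2).2.2.2] at h5
      have := hP.inj (i + 1) hi2 (i - 1) (by omega) h5
      omega)
    have h5 : h ≠ e := by
      rintro rfl
      have : v i = v 0 := by rw [← h1, hP.v0]
      have := hP.inj i hi 0 (by omega) this
      omega
    have h6 : h ≠ G.inv e := by
      rintro rfl
      have : v i = v n := by
        rw [← h1, hP.vn]
        rfl
      have := hP.inj i hi n (le_refl _) this
      omega
    refine ⟨h, fun _ => ⟨⟨h1, ?_, h5, h6⟩, fun h => absurd h hi0,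
      fun _ _ => ⟨h2, h3, h4⟩, fun h => absurd h hin⟩⟩
    apply hout i hi h h1 h5 h6
    · rintro j hj h6 rfl
      exact h3 h6
    · rintro j hj h6 h7
      have : j = i - 1 := by omega
      rw [this] at h6
      exact h2 h6
  choose h hh using key
  exact ⟨h, hh⟩

end Path

end Rg

open DG Rg in
/-- **Module RING1**. -/
theorem t_ring1 : T_RING1 := by
  intro V D _ _ G hG hC e f hbal hEul X n v c hXu hBB hP
  set A : Finset D := univ \ {e, G.inv e} with hAdef
  have hA : G.Cl A := cl_sdiff_pair cl_univ e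
  have memA : ∀ d, d ∈ A ↔ d ≠ e ∧ d ≠ G.inv e := by
    intro d
    rw [hAdef, mem_sdiff, mem_insert, mem_singleton, not_or]
    simp
  have hp : ∀ d ∈ A, f d ≠ f (G.inv d) := fun d hd => no_loop hC hEul hd
  obtain ⟨h, hh⟩ := exists_legs hG hP
  have hpos := hP.pos
  have hhA : ∀ m ≤ n, h m ∈ A := fun m hm => (memA _).2 ⟨(hh m hm).1.2.2.1, (hh m hm).1.2.2.2⟩
  have hcA : ∀ m < n, c m ∈ A := fun m hm => (memA _).2 ⟨(hP.hc m hm).1, (hP.hc m hm).2.1⟩
  have hvX : ∀ m ≤ n, v m ∈ X := fun m hm => (hP.mem _).2 ⟨m, hm, rfl⟩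
  have hsc : ∀ i < n, G.src (c i) = v i := fun i hi => (hP.hc i hi).2.2.1
  have htc : ∀ i < n, G.tgt (c i) = v (i + 1) := fun i hi => (hP.hc i hi).2.2.2
  have hsh : ∀ m ≤ n, G.src (h m) = v m := fun m hm => (hh m hm).1.1
  have hth : ∀ m ≤ n, G.tgt (h m) ∉ X := fun m hm => (hh m hm).1.2.1
  have hdeg : ∀ w, (sel A fun d => G.src d = w).card ≤ 3 := by
    intro w
    rw [← hG w]
    apply card_le_card
    intro d hd
    rw [mem_sel] at hd ⊢
    exact ⟨mem_univ _, hd.2⟩
  have heX : G.src e ∈ X := by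
    rw [← hP.v0]
    exact hvX 0 (by omega)
  have htX : G.tgt e ∈ X := by
    rw [← hP.vn]
    exact hvX n (le_refl _)
  have outA : ∀ d, G.src d ∉ X → d ∈ A := by
    intro d hd
    rw [memA]
    constructor
    · rintro rfl
      exact hd heX
    · rintro rfl
      exact hd htX
  -- the ends of the path
  have hf0 : f (h 0) = f (G.inv (c 0)) ∧ f (G.inv (h 0)) = f (c 0) := by
    have h1 := (hh 0 (by omega)).2.1 rfl
    have h2 := two_shift (hbal (v 0)) hp (hcA 0 hpos) (hhA 0 (by omega)) (hsc 0 hpos)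
      (hsh 0 (by omega)) (fun d hd hs => (h1.2 d hs).resolve_left ((memA d).1 hd).1)
    exact ⟨h2.1.symm, h2.2⟩
  have hn2 : n - 1 + 1 = n := by omega
  have hsn : G.src (G.inv (c (n - 1))) = v n := by
    have := htc (n - 1) (by omega)
    rwa [hn2] at this
  have hfn : f (h n) = f (c (n - 1)) ∧ f (G.inv (h n)) = f (G.inv (c (n - 1))) := by
    have h1 := (hh n (le_refl _)).2.2.2 rfl
    have h2 := two_shift (hbal (v n)) hp (hA _ (hcA (n - 1) (by omega))) (hhA n (le_refl _)) hsn
      (hsh n (le_refl _)) (fun d hd hs => (h1.2 d hs).resolve_left ((memA d).1 hd).2)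
    rw [G.inv_inv] at h2
    exact ⟨h2.1.symm, h2.2⟩
  -- inner vertices
  have hin : ∀ i, 0 < i → i < n →
      (f (c (i - 1)) = f (c i) ∧ f (G.inv (c i)) = f (h i) ∧
        f (G.inv (h i)) = f (G.inv (c (i - 1)))) ∨
      (f (c (i - 1)) = f (h i) ∧ f (G.inv (c i)) = f (G.inv (c (i - 1))) ∧
        f (G.inv (h i)) = f (c i)) := by
    intro i h0 h1
    obtain ⟨h2, h3, h4⟩ := (hh i h1.le).2.2.1 h0 h1
    have s1 : G.src (G.inv (c (i - 1))) = v i := by
      have := htc (i - 1) (by omega)
      rwa [show i - 1 + 1 = i by omega] at this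
    have h5 := three_shift (hbal (v i)) (hdeg _) hp (hA _ (hcA (i - 1) (by omega))) (hcA i h1)
      (hhA i h1.le) s1 (hsc i h1) (hsh i h1.le) (fun d _ hs => h4 d hs) (by
        intro h
        have h5 : G.tgt (c i) = v (i - 1) := by
          rw [← h, tgt_inv]
          exact hsc _ (by omega)
        rw [htc i h1] at h5
        have := hP.inj (i + 1) h1 (i - 1) (by omega) h5
        omega) h2.symm h3.symm
    rw [G.inv_inv] at h5
    exact h5
  set l : ℕ → Prop := fun i => f (h i) = f (c (i - 1)) with hl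
  have hleft : ∀ i, 0 < i → i < n → l i → f (G.inv (c i)) = f (G.inv (c (i - 1))) ∧
      f (h i) = f (c (i - 1)) ∧ f (G.inv (h i)) = f (c i) := by
    intro i h0 h1 h2
    rcases hin i h0 h1 with ⟨a1, a2, a3⟩ | ⟨a1, a2, a3⟩
    · exfalso
      apply hp _ (hcA i h1)
      rw [a2, ← a1]
      exact h2.symm
    · exact ⟨a2, a1.symm, a3⟩
  have hright : ∀ i, 0 < i → i < n → ¬ l i → f (c i) = f (c (i - 1)) ∧
      f (h i) = f (G.inv (c i)) ∧ f (G.inv (h i)) = f (G.inv (c (i - 1))) := by
    intro i h0 h1 h2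
    rcases hin i h0 h1 with ⟨a1, a2, a3⟩ | ⟨a1, a2, a3⟩
    · exact ⟨a1.symm, a2.symm, a3⟩
    · exact absurd a1.symm h2
  have chL : Chain G f n h l (fun m => f (c m)) := by
    intro m h0 h1
    refine ⟨fun h2 => Or.inl ?_, fun h2 => (hright m h0 h1 h2).1⟩
    have := hleft m h0 h1 h2
    exact ⟨this.2.1, this.2.2⟩
  have chR : Chain G f n h (fun m => ¬ l m) (fun m => f (G.inv (c m))) := by
    intro m h0 h1
    refine ⟨fun h2 => Or.inr ?_, fun h2 => (hleft m h0 h1 (not_not.1 h2)).1⟩
    have := hright m h0 h1 h2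
    exact ⟨this.2.1, this.2.2⟩
  -- values of the indicator functions
  have c_ne_h : ∀ m < n, ∀ k ≤ n, c m ≠ h k ∧ c m ≠ G.inv (h k) := by
    intro m hm k hk
    constructor
    · intro h1
      apply hth k hk
      rw [← h1, htc m hm]
      exact hvX _ hm
    · intro h1
      apply hth k hk
      have : G.src (G.inv (h k)) = v m := by rw [← h1, hsc m hm]
      rw [← src_inv, this]
      exact hvX _ hm.le
  have lg_c : ∀ (P : ℕ → Prop) (i j m : ℕ), m < n → j ≤ n → lg G h P i j (c m) = 0 := by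
    intro P i j m hm hj
    apply sum_eq_zero
    intro k hk
    rw [mem_sel, mem_Ioc] at hk
    have := c_ne_h m hm k (by omega)
    exact one_zero this.1 this.2
  have lg_out : ∀ (P : ℕ → Prop) (i j : ℕ) (d : D), j ≤ n → G.src d ∉ X → G.tgt d ∉ X →
      lg G h P i j d = 0 := by
    intro P i j d hj h1 h2
    apply sum_eq_zero
    intro k hk
    rw [mem_sel, mem_Ioc] at hk
    have hk' : k ≤ n := by omega
    apply one_zero
    · rintro rfl
      apply h1
      rw [hsh k hk']
      exact hvX k hk'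
    · rintro rfl
      apply h2
      rw [tgt_inv, hsh k hk']
      exact hvX k hk'
  have h_ne_h : ∀ m ≤ n, ∀ k ≤ n, m ≠ k → h m ≠ h k ∧ h m ≠ G.inv (h k) := by
    intro m hm k hk hmk
    constructor
    · intro h1
      apply hmk
      apply hP.inj m hm k hk
      rw [← hsh m hm, h1, hsh k hk]
    · intro h1
      apply hth k hk
      rw [← src_inv, ← h1, hsh m hm]
      exact hvX m hm
  have lg_h0 : ∀ (P : ℕ → Prop) (i j m : ℕ), m ≤ n → j ≤ n → (¬ (i < m ∧ m ≤ j ∧ P m)) →
      lg G h P i j (h m) = 0 := by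
    intro P i j m hm hj hno
    apply sum_eq_zero
    intro k hk
    rw [mem_sel, mem_Ioc] at hk
    have hk' : k ≤ n := by omega
    have hmk : m ≠ k := by
      rintro rfl
      exact hno ⟨hk.1.1, hk.1.2, hk.2⟩
    have := h_ne_h m hm k hk' hmk
    exact one_zero this.1 this.2
  have lg_h1 : ∀ (P : ℕ → Prop) (i j m : ℕ), m ≤ n → j ≤ n → i < m → m ≤ j → P m →
      lg G h P i j (h m) = 1 := by
    intro P i j m hm hj h1 h2 h3
    unfold lg
    rw [sum_eq_single m]
    · exact one_self _
    · intro k hk hkm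
      rw [mem_sel, mem_Ioc] at hk
      have := h_ne_h m hm k (by omega) hkm.symm
      exact one_zero this.1 this.2
    · intro h4
      exfalso
      apply h4
      rw [mem_sel, mem_Ioc]
      exact ⟨⟨h1, h2⟩, h3⟩
  have cc1 : ∀ j < n, ∀ m < n, one G (c j) (c m) = if m = j then 1 else 0 := by
    intro j hj m hm
    by_cases hmj : m = j
    · rw [if_pos hmj, hmj]
      exact one_self _
    · rw [if_neg hmj]
      apply one_zero
      · intro h1
        apply hmj
        apply hP.inj m hm.le j hj.le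
        rw [← hsc m hm, h1, hsc j hj]
      · intro h1
        have h2 : v m = v (j + 1) := by
          rw [← hsc m hm, h1, src_inv, htc j hj]
        have h3 : v (m + 1) = v j := by
          rw [← htc m hm, h1, tgt_inv, hsc j hj]
        have h4 := hP.inj m hm.le (j + 1) hj h2
        have h5 := hP.inj (m + 1) hm j hj.le h3
        omega
  have ch0 : ∀ j < n, ∀ m ≤ n, one G (c j) (h m) = 0 := by
    intro j hj m hm
    have h1 := c_ne_h j hj m hm
    apply one_zero
    · exact h1.1.symm
    · intro h2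
      apply h1.2
      rw [h2, G.inv_inv]
  have cout : ∀ j < n, ∀ d, G.src d ∉ X → one G (c j) d = 0 := by
    intro j hj d hd
    apply one_zero
    · rintro rfl
      apply hd
      rw [hsc j hj]
      exact hvX j hj.le
    · rintro rfl
      apply hd
      rw [src_inv, htc j hj]
      exact hvX _ hj
  -- dual cycles of legs
  have dP : ∀ (P : ℕ → Prop) (q : ℕ → ℕ), Chain G f n h P q → ∀ i j, i < j → j < n → q i = q j →
      ∀ k, i < k → k ≤ j → ¬ P k := by
    intro P q hch i j hij hj hq k hik hkj hPk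
    obtain ⟨W, hW⟩ := hEul (lg G h P i j) (fun d => lg_symm h P i j d) (fun a => by
      have := FS_lg hA hch hhA hij.le hj a
      unfold FS at this
      rw [this, hq, CharTwo.add_self_eq_zero])
    obtain ⟨a, ha⟩ := compl_const (W := W) hBB (fun d h1 h2 => by
      rw [← hW d (outA d h1), lg_out P i j d hj.le h1 h2])
    have hv : ∀ m ≤ n, ind W (v m) = ind W (v 0) := by
      intro m
      induction m with
      | zero => intro _; rfl
      | succ m ih =>
        intro hm
        rw [← ih (by omega)]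
        have h1 := hW (c m) (hcA m hm)
        rw [lg_c P i j m hm hj.le, hsc m hm, htc m hm] at h1
        have h2 := CharTwo.add_self_eq_zero (ind W (v (m + 1)))
        exact (add_right_cancel (h1.symm.trans h2.symm)).symm
    have h1 := hW (h 0) (hhA 0 (by omega))
    rw [lg_h0 P i j 0 (by omega) hj.le (by omega), hsh 0 (by omega), ha _ (hth 0 (by omega))] at h1
    have h2 := hW (h k) (hhA k (by omega))
    rw [lg_h1 P i j k (by omega) hj.le hik hkj hPk, hsh k (by omega), ha _ (hth k (by omega)),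
      hv k (by omega), ← h1] at h2
    exact one_ne_zero h2
  have FS_lg2 : ∀ (P : ℕ → Prop) (q : ℕ → ℕ), Chain G f n h P q → ∀ i j, i < n → j < n →
      ∀ a, FS A f (lg G h P (min i j) (max i j)) a = dl (q i) a + dl (q j) a := by
    intro P q hch i j hi hj a
    rcases le_total i j with h1 | h1
    · rw [min_eq_left h1, max_eq_right h1]
      exact FS_lg hA hch hhA h1 hj a
    · rw [min_eq_right h1, max_eq_left h1, add_comm]
      exact FS_lg hA hch hhA h1 hi a
  refine ⟨h, l, ?_⟩
  refine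
    { leg := fun i hi => (hh i hi).1
      star0 := fun d hd => ((hh 0 (by omega)).2.1 rfl).2 d hd
      star := fun i h0 h1 d hd => ((hh i h1.le).2.2.1 h0 h1).2.2 d hd
      starn := fun d hd => ((hh n (le_refl _)).2.2.2 rfl).2 d hd
      f0 := hf0
      fn := hfn
      left := hleft
      right := hright
      dL := fun i _ j hj hij hq k h1 h2 => dP l _ chL i j hij hj hq k h1 h2
      dR := fun i _ j hj hij hq k h1 h2 => not_not.1 (dP _ _ chR i j hij hj hq k h1 h2)
      dLR := ?_
      out := ?_ }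
  · intro i hi j hj hq
    have hmax : max i j < n := max_lt hi hj
    obtain ⟨W, hW⟩ := hEul (fun d => lg G h l (min i j) (max i j) d + one G (c j) d) (fun d => by
      rw [lg_symm, one_symm]) (fun a => by
      have h1 := FS_add (A := A) f (lg G h l (min i j) (max i j)) (one G (c j)) a
      rw [FS_lg2 l _ chL i j hi hj, FS_one hA f (hcA j hj)] at h1
      unfold FS at h1
      rw [h1, hq]
      have h2 := CharTwo.add_self_eq_zero (dl (f (c j)) a)
      have h3 := CharTwo.add_self_eq_zero (dl (f (G.inv (c j))) a)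
      linear_combination h2 + h3)
    obtain ⟨a, ha⟩ := compl_const (W := W) hBB (fun d h1 h2 => by
      rw [← hW d (outA d h1), lg_out l _ _ d hmax.le h1 h2, cout j hj d h1, add_zero])
    have hv : ∀ m ≤ n, ind W (v m) = ind W (v 0) + if j < m then 1 else 0 := by
      intro m
      induction m with
      | zero => intro _; simp
      | succ m ih =>
        intro hm
        have h1 := hW (c m) (hcA m hm)
        rw [lg_c l _ _ m hm hmax.le, hsc m hm, htc m hm, cc1 j hj m hm, ih (by omega)] at h1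
        have h2 := CharTwo.add_self_eq_zero (ind W (v (m + 1)))
        have h3 := CharTwo.add_self_eq_zero (ind W (v 0))
        have h4 := CharTwo.add_self_eq_zero (1 : ZMod 2)
        by_cases x1 : m = j
        · rw [if_pos x1, if_neg (by omega)] at h1
          rw [if_pos (by omega)]
          linear_combination - h1 - h3
        · rw [if_neg x1] at h1
          by_cases x2 : j < m
          · rw [if_pos x2] at h1
            rw [if_pos (by omega)]
            linear_combination - h1 - h3 - h4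
          · rw [if_neg x2] at h1
            rw [if_neg (by omega)]
            linear_combination - h1 - h3
    have h1 := hW (h 0) (hhA 0 (by omega))
    rw [lg_h0 l _ _ 0 (by omega) hmax.le (by omega), ch0 j hj 0 (by omega), hsh 0 (by omega),
      ha _ (hth 0 (by omega))] at h1
    have h2 := hW (h n) (hhA n (le_refl _))
    rw [lg_h0 l _ _ n (le_refl _) hmax.le (by omega), ch0 j hj n (le_refl _), hsh n (le_refl _),
      ha _ (hth n (le_refl _)), hv n (le_refl _), if_pos hj] at h2
    have h3 : (1 : ZMod 2) = 0 := by linear_combination h1 - h2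
    exact one_ne_zero h3
  · have out1 : ∀ (P : ℕ → Prop) (q : ℕ → ℕ), Chain G f n h P q → ∀ i j, i < n → j < n →
        ∀ d, G.src d ∉ X → G.tgt d ∉ X → f d = q i → f (G.inv d) = q j → False := by
      intro P q hch i j hi hj d h1 h2 h3 h4
      have hmax : max i j < n := max_lt hi hj
      obtain ⟨W, hW⟩ := hEul (fun g => lg G h P (min i j) (max i j) g + one G d g) (fun g => by
        rw [lg_symm, one_symm]) (fun a => by
        have h5 := FS_add (A := A) f (lg G h P (min i j) (max i j)) (one G d) a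
        rw [FS_lg2 P q hch i j hi hj, FS_one hA f (outA d h1), h3, h4] at h5
        unfold FS at h5
        rw [h5, CharTwo.add_self_eq_zero])
      apply compl_one (W := W) hBB h1 h2
      · intro g g1 g2 g3 g4
        rw [← hW g (outA g g1), lg_out P _ _ g hmax.le g1 g2, one_zero g3 g4, add_zero]
      · rw [← hW d (outA d h1), lg_out P _ _ d hmax.le h1 h2, one_self, zero_add]
    have out2 : ∀ i j, i < n → j < n →
        ∀ d, G.src d ∉ X → G.tgt d ∉ X → f d = f (c i) → f (G.inv d) = f (G.inv (c j)) →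
          False := by
      intro i j hi hj d h1 h2 h3 h4
      have hmax : max i j < n := max_lt hi hj
      obtain ⟨W, hW⟩ := hEul (fun g => lg G h l (min i j) (max i j) g +
        (one G (c j) g + one G d g)) (fun g => by
        rw [lg_symm, one_symm, one_symm]) (fun a => by
        have h5 := FS_add (A := A) f (lg G h l (min i j) (max i j))
          (fun g => one G (c j) g + one G d g) a
        rw [FS_lg2 l _ chL i j hi hj, FS_add (A := A) f (one G (c j)) (one G d) a,
          FS_one hA f (outA d h1), FS_one hA f (hcA j hj),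
          h3, h4] at h5
        unfold FS at h5
        rw [h5]
        have h6 := CharTwo.add_self_eq_zero (dl (f (c j)) a)
        have h7 := CharTwo.add_self_eq_zero (dl (f (c i)) a)
        have h8 := CharTwo.add_self_eq_zero (dl (f (G.inv (c j))) a)
        linear_combination h6 + h7 + h8)
      apply compl_one (W := W) hBB h1 h2
      · intro g g1 g2 g3 g4
        rw [← hW g (outA g g1), lg_out l _ _ g hmax.le g1 g2, one_zero g3 g4, cout j hj g g1]
        simp
      · rw [← hW d (outA d h1), lg_out l _ _ d hmax.le h1 h2, one_self, cout j hj d h1]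
        simp
    intro d h1 h2
    refine ⟨hp d (outA d h1), ?_⟩
    rintro ⟨⟨i, hi, h3 | h3⟩, ⟨j, hj, h4 | h4⟩⟩
    · exact out1 _ _ chL i j hi hj d h1 h2 h3 h4
    · exact out2 i j hi hj d h1 h2 h3 h4
    · apply out2 j i hj hi (G.inv d) h2 (by rw [tgt_inv]; exact h1) h4
      rw [G.inv_inv]
      exact h3
    · exact out1 _ _ chR i j hi hj d h1 h2 h3 h4

end Pool.Agent.H69.OC
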