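import Pool.Agent.H69.OC.Targets

/-!
# Suppressing vertices of degree two (module SUP)
-/

set_option autoImplicit false
set_option linter.unusedSectionVars false
open scoped Classical
open Finset

namespace Pool.Agent.H69.OC

namespace Sup

open DG

variable {V D : Type} [Fintype V] [Fintype D]

/-- planarity up to an edge is inherited by subgraphs -/
theorem pe_mono (hm : T_MONO) {G : DG V D} {A B : Finset D} (hA : G.Cl A) (hB : G.Cl B)
    (hBA : B ⊆ A) (h : G.PE A) : G.PE B := by
  obtain ⟨E, hE, hc, hp⟩ := h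
  refine ⟨E, hE, hc, hm V D G (A \ E) (B \ E) (hA.sdiff hE) (hB.sdiff hE) ?_ hp⟩
  exact sdiff_subset_sdiff hBA (Subset.refl _)

/-- a planar structure depends only on the involution on the set of edges -/
theorem pl_congr {G G' : DG V D} (hs : G'.src = G.src) {B : Finset D} (hB : G.Cl B)
    (hi : ∀ d ∈ B, G'.inv d = G.inv d) (h : G.Pl B) : G'.Pl B := by
  obtain ⟨s, f, ⟨hr1, hr2⟩, hf, he⟩ := h
  refine ⟨s, f, ⟨?_, ?_⟩, ?_, ?_⟩
  · intro d hd
    rw [hs]
    exact hr1 d hd
  · intro d hd d' hd' h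
    rw [hs] at h
    exact hr2 d hd d' hd' h
  · intro d hd
    rw [hi d hd]
    exact hf d hd
  · intro x hx hk
    obtain ⟨W, hW⟩ := he (fun d => if d ∈ B then x d else 0) (by
      intro d
      by_cases h1 : d ∈ B
      · simp only [if_pos h1, if_pos (hB _ h1)]
        rw [← hi d h1, hx]
      · have h2 : G.inv d ∉ B := fun h => h1 (hB.mem_iff.1 h)
        simp only [if_neg h1, if_neg h2]) (by
      intro k
      rw [← hk k]
      apply sum_congr rfl
      intro d hd
      rw [mem_sel] at hd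
      rw [if_pos hd.1])
    refine ⟨W, fun d hd => ?_⟩
    have h1 := hW d hd
    simp only [if_pos hd] at h1
    rw [h1]
    unfold tgt
    rw [hi d hd, hs]

/-! ### A vertex of degree two -/

section Two

variable (G : DG V D) (A : Finset D) (d1 d2 : D) (v : V)

/-- the involution after suppression -/
noncomputable def inv2 (d : D) : D :=
  if d = d1 then d2 else if d = d2 then d1 else if d = G.inv d1 then G.inv d2 else
    if d = G.inv d2 then G.inv d1 else G.inv d

variable {G A d1 d2 v}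

theorem inv2_d1 : inv2 G d1 d2 d1 = d2 := by simp [inv2]

theorem inv2_d2 (h12 : d1 ≠ d2) : inv2 G d1 d2 d2 = d1 := by simp [inv2, h12.symm]

theorem inv2_e1 (hne : d2 ≠ G.inv d1) : inv2 G d1 d2 (G.inv d1) = G.inv d2 := by
  simp [inv2, G.inv_ne d1, hne.symm]

theorem inv2_e2 (h12 : d1 ≠ d2) (hne : d2 ≠ G.inv d1) : inv2 G d1 d2 (G.inv d2) = G.inv d1 := by
  have h1 : G.inv d2 ≠ d1 := fun h => hne (by rw [← h, G.inv_inv])
  have h2 : G.inv d2 ≠ G.inv d1 := fun h => h12 (inv_inj h).symm
  simp [inv2, G.inv_ne d2, h1, h2]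

theorem inv2_other {d : D} (a1 : d ≠ d1) (a2 : d ≠ d2) (a3 : d ≠ G.inv d1) (a4 : d ≠ G.inv d2) :
    inv2 G d1 d2 d = G.inv d := by
  simp [inv2, a1, a2, a3, a4]

/-- the multigraph after suppression of the vertex with darts `d1`, `d2` -/
noncomputable def G2 (G : DG V D) (d1 d2 : D) (h12 : d1 ≠ d2) (hne : d2 ≠ G.inv d1) : DG V D where
  src := G.src
  inv := inv2 G d1 d2
  inv_inv := by
    intro d
    by_cases a1 : d = d1
    · rw [a1, inv2_d1, inv2_d2 h12]
    by_cases a2 : d = d2
    · rw [a2, inv2_d2 h12, inv2_d1]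
    by_cases a3 : d = G.inv d1
    · rw [a3, inv2_e1 hne, inv2_e2 h12 hne]
    by_cases a4 : d = G.inv d2
    · rw [a4, inv2_e2 h12 hne, inv2_e1 hne]
    rw [inv2_other a1 a2 a3 a4, inv2_other, G.inv_inv]
    · intro h
      exact a3 (by rw [← h, G.inv_inv])
    · intro h
      exact a4 (by rw [← h, G.inv_inv])
    · intro h
      exact a1 (inv_inj h)
    · intro h
      exact a2 (inv_inj h)
  inv_ne := by
    intro d
    by_cases a1 : d = d1
    · rw [a1, inv2_d1]
      exact h12.symm
    by_cases a2 : d = d2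
    · rw [a2, inv2_d2 h12]
      exact h12
    by_cases a3 : d = G.inv d1
    · rw [a3, inv2_e1 hne]
      intro h
      exact h12 (inv_inj h).symm
    by_cases a4 : d = G.inv d2
    · rw [a4, inv2_e2 h12 hne]
      intro h
      exact h12 (inv_inj h)
    rw [inv2_other a1 a2 a3 a4]
    exact G.inv_ne d

/-- `d1`, `d2` are the two darts at the vertex `v` -/
structure TwoAt (G : DG V D) (A : Finset D) (v : V) (d1 d2 : D) : Prop where
  cl : G.Cl A
  m1 : d1 ∈ A
  m2 : d2 ∈ A
  s1 : G.src d1 = v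
  s2 : G.src d2 = v
  only : ∀ d ∈ A, G.src d = v → d = d1 ∨ d = d2
  h12 : d1 ≠ d2
  hne : d2 ≠ G.inv d1

variable {A : Finset D} {v : V}

theorem TwoAt.t1 (h : TwoAt G A v d1 d2) : G.src (G.inv d1) ≠ v := by
  intro h1
  rcases h.only _ (h.cl _ h.m1) h1 with h2 | h2
  · exact G.inv_ne _ h2
  · exact h.hne h2.symm

theorem TwoAt.t2 (h : TwoAt G A v d1 d2) : G.src (G.inv d2) ≠ v := by
  intro h1
  rcases h.only _ (h.cl _ h.m2) h1 with h2 | h2
  · exact h.hne (by rw [← h2, G.inv_inv])
  · exact G.inv_ne _ h2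

theorem TwoAt.e12 (h : TwoAt G A v d1 d2) : G.inv d1 ≠ G.inv d2 := fun h1 => h.h12 (inv_inj h1)

theorem TwoAt.d2e1 (h : TwoAt G A v d1 d2) : G.inv d2 ≠ d1 := by
  intro h1
  exact h.hne (by rw [← h1, G.inv_inv])

/-- darts of `A'` are not at `v` -/
theorem TwoAt.src_ne (h : TwoAt G A v d1 d2) {d : D} (hd : d ∈ A) (n1 : d ≠ d1) (n2 : d ≠ d2) :
    G.src d ≠ v := by
  intro h1
  rcases h.only d hd h1 with h2 | h2
  · exact n1 h2
  · exact n2 h2

theorem TwoAt.tgt_ne (h : TwoAt G A v d1 d2) {d : D} (hd : d ∈ A) (n1 : d ≠ G.inv d1)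
    (n2 : d ≠ G.inv d2) : G.src (G.inv d) ≠ v := by
  apply h.src_ne (h.cl _ hd)
  · intro h1
    exact n1 (by rw [← h1, G.inv_inv])
  · intro h1
    exact n2 (by rw [← h1, G.inv_inv])

theorem mem_A' {d : D} : d ∈ A \ {d1, d2} ↔ d ∈ A ∧ d ≠ d1 ∧ d ≠ d2 := by
  simp only [mem_sdiff, mem_insert, mem_singleton, not_or]

theorem TwoAt.cl' (h : TwoAt G A v d1 d2) : (G2 G d1 d2 h.h12 h.hne).Cl (A \ {d1, d2}) := by
  intro d hd
  rw [mem_A'] at hd ⊢
  change inv2 G d1 d2 d ∈ A ∧ inv2 G d1 d2 d ≠ d1 ∧ inv2 G d1 d2 d ≠ d2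
  by_cases a3 : d = G.inv d1
  · rw [a3, inv2_e1 h.hne]
    exact ⟨h.cl _ h.m2, h.d2e1, G.inv_ne _⟩
  by_cases a4 : d = G.inv d2
  · rw [a4, inv2_e2 h.h12 h.hne]
    exact ⟨h.cl _ h.m1, G.inv_ne _, fun h1 => h.hne h1.symm⟩
  rw [inv2_other hd.2.1 hd.2.2 a3 a4]
  refine ⟨h.cl _ hd.1, ?_, ?_⟩
  · intro h1
    exact a3 (by rw [← h1, G.inv_inv])
  · intro h1
    exact a4 (by rw [← h1, G.inv_inv])

theorem TwoAt.bl' (h : TwoAt G A v d1 d2) (hb : G.BL A) :
    (G2 G d1 d2 h.h12 h.hne).BL (A \ {d1, d2}) := by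
  intro Z hZ
  set Z1 : Finset V := sel univ (fun w => if w = v then G.src (G.inv d1) ∈ Z else w ∈ Z) with hZ1
  have hv : v ∈ Z1 ↔ G.src (G.inv d1) ∈ Z := by
    rw [hZ1, mem_sel]
    simp
  have hw : ∀ w, w ≠ v → (w ∈ Z1 ↔ w ∈ Z) := by
    intro w hw
    rw [hZ1, mem_sel]
    simp [hw]
  have key : ∀ d, d ∈ G.cut A Z1 ↔
      Equiv.swap (G.inv d1) d2 d ∈ (G2 G d1 d2 h.h12 h.hne).cut (A \ {d1, d2}) Z := by
    intro d
    rw [mem_cut, mem_cut, mem_A']
    change (d ∈ A ∧ G.src d ∈ Z1 ∧ G.src (G.inv d) ∉ Z1) ↔ _ ∧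
      G.src (Equiv.swap (G.inv d1) d2 d) ∈ Z ∧
      G.src (inv2 G d1 d2 (Equiv.swap (G.inv d1) d2 d)) ∉ Z
    by_cases a1 : d = d1
    · rw [a1, Equiv.swap_apply_of_ne_of_ne (G.inv_ne _).symm h.h12, h.s1, hv, hw _ h.t1]
      tauto
    by_cases a2 : d = d2
    · rw [a2, Equiv.swap_apply_right, inv2_e1 h.hne, h.s2, hv, hw _ h.t2]
      have := h.m2
      have := h.cl _ h.m1
      have := G.inv_ne d1
      have := h.hne
      tauto
    by_cases a3 : d = G.inv d1
    · rw [a3, Equiv.swap_apply_left, G.inv_inv, h.s1, hv, hw _ h.t1]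
      tauto
    by_cases a4 : d = G.inv d2
    · rw [a4, Equiv.swap_apply_of_ne_of_ne h.e12.symm (G.inv_ne _), inv2_e2 h.h12 h.hne,
        G.inv_inv, h.s2, hv, hw _ h.t2]
      have := h.cl _ h.m2
      have := h.d2e1
      have := G.inv_ne d2
      tauto
    rw [Equiv.swap_apply_of_ne_of_ne a3 a2, inv2_other a1 a2 a3 a4]
    by_cases hdA : d ∈ A
    · rw [hw _ (h.src_ne hdA a1 a2), hw _ (h.tgt_ne hdA a3 a4)]
      tauto
    · tauto
  apply hb Z1
  rw [← hZ]
  apply card_equiv (Equiv.swap (G.inv d1) d2)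
  exact key

theorem TwoAt.cov' (h : TwoAt G A v d1 d2) {lam : D → ℕ}
    (hl : (G2 G d1 d2 h.h12 h.hne).Cov (A \ {d1, d2}) lam) : ∃ lam, G.Cov A lam := by
  obtain ⟨hp, hb⟩ := hl
  set mu : D → ℕ := fun d => if d = d1 then lam (G.inv d2) else if d = d2 then lam (G.inv d1)
    else lam d with hmu
  have mu1 : mu d1 = lam (G.inv d2) := by simp [hmu]
  have mu2 : mu d2 = lam (G.inv d1) := by simp [hmu, h.h12.symm]
  have mu3 : ∀ d, d ≠ d1 → d ≠ d2 → mu d = lam d := by
    intro d n1 n2
    simp [hmu, n1, n2]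
  have mue1 : mu (G.inv d1) = lam (G.inv d1) := mu3 _ (G.inv_ne _) (fun h1 => h.hne h1.symm)
  have mue2 : mu (G.inv d2) = lam (G.inv d2) := mu3 _ h.d2e1 (G.inv_ne _)
  have he1A' : G.inv d1 ∈ A \ {d1, d2} :=
    mem_A'.2 ⟨h.cl _ h.m1, G.inv_ne _, fun h1 => h.hne h1.symm⟩
  have hp1 : lam (G.inv d1) ≠ lam (G.inv d2) := by
    have h1 := hp _ he1A'
    change lam (G.inv d1) ≠ lam (inv2 G d1 d2 (G.inv d1)) at h1
    rwa [inv2_e1 h.hne] at h1
  -- in-labels
  have hin : ∀ d ∈ A \ {d1, d2}, mu (G.inv d) = lam (inv2 G d1 d2 d) := by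
    intro d hd
    rw [mem_A'] at hd
    by_cases a3 : d = G.inv d1
    · rw [a3, inv2_e1 h.hne, G.inv_inv, mu1]
    by_cases a4 : d = G.inv d2
    · rw [a4, inv2_e2 h.h12 h.hne, G.inv_inv, mu2]
    rw [inv2_other hd.2.1 hd.2.2 a3 a4, mu3]
    · intro h1
      exact a3 (by rw [← h1, G.inv_inv])
    · intro h1
      exact a4 (by rw [← h1, G.inv_inv])
  refine ⟨mu, ?_, ?_⟩
  · intro d hd
    by_cases a1 : d = d1
    · rw [a1, mu1, mue1]
      exact hp1.symm
    by_cases a2 : d = d2
    · rw [a2, mu2, mue2]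
      exact hp1
    have hd' : d ∈ A \ {d1, d2} := mem_A'.2 ⟨hd, a1, a2⟩
    rw [mu3 d a1 a2, hin d hd']
    exact hp d hd'
  · intro w k
    by_cases hwv : w = v
    · subst hwv
      have e1 : (sel A fun d => G.src d = w ∧ mu d = k) =
          sel {d1, d2} (fun d => mu d = k) := by
        apply sel_congr
        intro d
        rw [mem_insert, mem_singleton]
        constructor
        · rintro ⟨x1, x2, x3⟩
          exact ⟨h.only d x1 x2, x3⟩
        · rintro ⟨x1 | x1, x2⟩
          · rw [x1] at x2 ⊢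
            exact ⟨h.m1, h.s1, x2⟩
          · rw [x1] at x2 ⊢
            exact ⟨h.m2, h.s2, x2⟩
      have e2 : (sel A fun d => G.src d = w ∧ mu (G.inv d) = k) =
          sel {d1, d2} (fun d => mu (G.inv d) = k) := by
        apply sel_congr
        intro d
        rw [mem_insert, mem_singleton]
        constructor
        · rintro ⟨x1, x2, x3⟩
          exact ⟨h.only d x1 x2, x3⟩
        · rintro ⟨x1 | x1, x2⟩
          · rw [x1] at x2 ⊢
            exact ⟨h.m1, h.s1, x2⟩
          · rw [x1] at x2 ⊢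
            exact ⟨h.m2, h.s2, x2⟩
      rw [e1, e2]
      apply card_equiv (Equiv.swap d1 d2)
      intro d
      rw [mem_sel, mem_sel, mem_insert, mem_singleton, mem_insert, mem_singleton]
      constructor
      · rintro ⟨x1 | x1, x2⟩
        · rw [x1, mu1] at x2
          rw [x1, Equiv.swap_apply_left, mue2]
          exact ⟨Or.inr rfl, x2⟩
        · rw [x1, mu2] at x2
          rw [x1, Equiv.swap_apply_right, mue1]
          exact ⟨Or.inl rfl, x2⟩
      · rintro ⟨x1 | x1, x2⟩
        · rw [x1, mue1] at x2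
          have x3 : d = d2 := by
            rw [Equiv.swap_apply_eq_iff.1 x1, Equiv.swap_apply_left]
          rw [x3, mu2]
          exact ⟨Or.inr rfl, x2⟩
        · rw [x1, mue2] at x2
          have x3 : d = d1 := by
            rw [Equiv.swap_apply_eq_iff.1 x1, Equiv.swap_apply_right]
          rw [x3, mu1]
          exact ⟨Or.inl rfl, x2⟩
    · have h1 := hb w k
      have n1 : ∀ d ∈ A, G.src d = w → d ∈ A \ {d1, d2} := by
        intro d hd hs
        rw [mem_A']
        refine ⟨hd, ?_, ?_⟩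
        · rintro rfl
          exact hwv (hs.symm.trans h.s1)
        · rintro rfl
          exact hwv (hs.symm.trans h.s2)
      have e1 : (sel A fun d => G.src d = w ∧ mu d = k) =
          sel (A \ {d1, d2}) (fun d => (G2 G d1 d2 h.h12 h.hne).src d = w ∧ lam d = k) := by
        apply sel_congr
        intro d
        change _ ↔ _ ∧ G.src d = w ∧ lam d = k
        constructor
        · rintro ⟨x1, x2, x3⟩
          have x4 := n1 d x1 x2
          have x5 := mem_A'.1 x4
          rw [mu3 d x5.2.1 x5.2.2] at x3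
          exact ⟨x4, x2, x3⟩
        · rintro ⟨x1, x2, x3⟩
          have x5 := mem_A'.1 x1
          rw [mu3 d x5.2.1 x5.2.2]
          exact ⟨x5.1, x2, x3⟩
      have e2 : (sel A fun d => G.src d = w ∧ mu (G.inv d) = k) =
          sel (A \ {d1, d2}) (fun d => (G2 G d1 d2 h.h12 h.hne).src d = w ∧
            lam ((G2 G d1 d2 h.h12 h.hne).inv d) = k) := by
        apply sel_congr
        intro d
        change _ ↔ _ ∧ G.src d = w ∧ lam (inv2 G d1 d2 d) = k
        constructor
        · rintro ⟨x1, x2, x3⟩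
          have x4 := n1 d x1 x2
          rw [hin d x4] at x3
          exact ⟨x4, x2, x3⟩
        · rintro ⟨x1, x2, x3⟩
          rw [hin d x1]
          exact ⟨(mem_A'.1 x1).1, x2, x3⟩
      rw [e1, e2]
      exact h1

/-- `s` exchanges the two darts at `v` -/
theorem TwoAt.rot (h : TwoAt G A v d1 d2) {B : Finset D} (hBA : B ⊆ A) (b1 : d1 ∈ B)
    (b2 : d2 ∈ B) {s : Equiv.Perm D} (hs : G.Rot B s) : s d1 = d2 ∧ s d2 = d1 := by
  obtain ⟨h1, h2⟩ := hs
  have h3 := h2 d1 b1 d2 b2 (h.s1.trans h.s2.symm)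
  have h4 : ∀ i : ℤ, s d1 = d1 → (s ^ i) d1 = d1 := fun i h5 =>
    Equiv.Perm.zpow_apply_eq_self_of_apply_eq_self h5 i
  have h5 : s d1 ≠ d1 := by
    intro h6
    obtain ⟨i, hi⟩ := h3
    rw [h4 i h6] at hi
    exact h.h12 hi
  have h6 : s d2 ≠ d2 := by
    intro h6
    obtain ⟨i, hi⟩ := h3.symm
    rw [Equiv.Perm.zpow_apply_eq_self_of_apply_eq_self h6 i] at hi
    exact h.h12 hi.symm
  have h7 := h1 d1 b1
  have h8 := h1 d2 b2
  constructor
  · exact (h.only _ (hBA h7.1) (h7.2.trans h.s1)).resolve_left h5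
  · exact (h.only _ (hBA h8.1) (h8.2.trans h.s2)).resolve_right h6

theorem TwoAt.pl' (h : TwoAt G A v d1 d2) {E : Finset D} (hE : G.Cl E) (n1 : d1 ∉ E)
    (n2 : d2 ∉ E) (hp : G.Pl (A \ E)) :
    (G2 G d1 d2 h.h12 h.hne).Pl ((A \ {d1, d2}) \ E) := by
  obtain ⟨s, f, hr, hf, he⟩ := hp
  have m1 : d1 ∈ A \ E := mem_sdiff.2 ⟨h.m1, n1⟩
  have m2 : d2 ∈ A \ E := mem_sdiff.2 ⟨h.m2, n2⟩
  obtain ⟨hs1, hs2⟩ := h.rot sdiff_subset m1 m2 hr
  obtain ⟨hr1, hr2⟩ := hr
  have hcl : G.Cl (A \ E) := h.cl.sdiff hE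
  have k1 : f d2 = f (G.inv d1) := by
    have := hf _ (hcl _ m1)
    rwa [G.inv_inv, hs1] at this
  have k2 : f d1 = f (G.inv d2) := by
    have := hf _ (hcl _ m2)
    rwa [G.inv_inv, hs2] at this
  have hsub : ∀ d, d ∈ (A \ {d1, d2}) \ E ↔ d ∈ A \ E ∧ d ≠ d1 ∧ d ≠ d2 := by
    intro d
    rw [mem_sdiff, mem_A', mem_sdiff]
    tauto
  refine ⟨s, f, ⟨?_, ?_⟩, ?_, ?_⟩
  · intro d hd
    rw [hsub] at hd ⊢
    have h3 := hr1 d hd.1
    have h4 := h.src_ne (mem_sdiff.1 hd.1).1 hd.2.1 hd.2.2
    refine ⟨⟨h3.1, ?_, ?_⟩, h3.2⟩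
    · intro h5
      rw [h5, h.s1] at h3
      exact h4 h3.2.symm
    · intro h5
      rw [h5, h.s2] at h3
      exact h4 h3.2.symm
  · intro d hd d' hd' h3
    exact hr2 d ((hsub d).1 hd).1 d' ((hsub d').1 hd').1 h3
  · intro d hd
    rw [hsub] at hd
    change f (s (inv2 G d1 d2 d)) = f d
    by_cases a3 : d = G.inv d1
    · rw [a3, inv2_e1 h.hne, hf _ m2, k1]
    by_cases a4 : d = G.inv d2
    · rw [a4, inv2_e2 h.h12 h.hne, hf _ m1, k2]
    rw [inv2_other hd.2.1 hd.2.2 a3 a4]
    exact hf d hd.1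
  · intro x hx hk
    have hx12 : x (G.inv d2) = x (G.inv d1) := by
      have := hx (G.inv d1)
      change x (inv2 G d1 d2 (G.inv d1)) = x (G.inv d1) at this
      rwa [inv2_e1 h.hne] at this
    set y : D → ZMod 2 := fun d => if d = d1 ∨ d = G.inv d1 then x (G.inv d1) else
      if d = d2 ∨ d = G.inv d2 then 0 else x d with hy
    have y1 : y d1 = x (G.inv d1) := by simp [hy]
    have ye1 : y (G.inv d1) = x (G.inv d1) := by simp [hy]
    have y2 : y d2 = 0 := by
      have := h.h12.symm
      have := h.hne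
      simp [*]
    have ye2 : y (G.inv d2) = 0 := by
      have := h.e12.symm
      have := h.d2e1
      simp [*]
    have y0 : ∀ d, d ≠ d1 → d ≠ d2 → d ≠ G.inv d1 → d ≠ G.inv d2 → y d = x d := by
      intro d a1 a2 a3 a4
      simp [*]
    have hysym : ∀ d, y (G.inv d) = y d := by
      intro d
      by_cases a1 : d = d1
      · rw [a1, y1, ye1]
      by_cases a2 : d = d2
      · rw [a2, y2, ye2]
      by_cases a3 : d = G.inv d1
      · rw [a3, G.inv_inv, y1, ye1]
      by_cases a4 : d = G.inv d2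
      · rw [a4, G.inv_inv, y2, ye2]
      rw [y0 d a1 a2 a3 a4, y0 (G.inv d)]
      · have := hx d
        change x (inv2 G d1 d2 d) = x d at this
        rwa [inv2_other a1 a2 a3 a4] at this
      · intro h1
        exact a3 (by rw [← h1, G.inv_inv])
      · intro h1
        exact a4 (by rw [← h1, G.inv_inv])
      · intro h1
        exact a1 (inv_inj h1)
      · intro h1
        exact a2 (inv_inj h1)
    have hysum : ∀ k, ∑ d ∈ sel (A \ E) (fun d => f d = k), y d = 0 := by
      intro k
      rw [← hk k]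
      -- write both sums over all darts
      have g1 : ∑ d ∈ sel (A \ E) (fun d => f d = k), y d =
          ∑ d, if d ∈ A \ E ∧ f d = k then y d else 0 := by
        rw [← sum_filter]
        apply sum_congr _ (fun _ _ => rfl)
        ext d
        simp only [mem_sel, mem_filter, mem_univ, true_and]
      have g2 : ∑ d ∈ sel ((A \ {d1, d2}) \ E) (fun d => f d = k), x d =
          ∑ d, if d ∈ (A \ {d1, d2}) \ E ∧ f d = k then x d else 0 := by
        rw [← sum_filter]
        apply sum_congr _ (fun _ _ => rfl)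
        ext d
        simp only [mem_sel, mem_filter, mem_univ, true_and]
      rw [g1, g2, ← Equiv.sum_comp (Equiv.swap d1 (G.inv d2)) (fun d =>
        if d ∈ (A \ {d1, d2}) \ E ∧ f d = k then x d else 0)]
      apply sum_congr rfl
      intro d _
      have me1 := hcl _ m1
      have me2 := hcl _ m2
      by_cases a1 : d = d1
      · rw [a1, Equiv.swap_apply_left, y1, hx12]
        have : (d1 ∈ A \ E ∧ f d1 = k) ↔ (G.inv d2 ∈ (A \ {d1, d2}) \ E ∧ f (G.inv d2) = k) := by
          rw [hsub, k2]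
          have := h.d2e1
          have := G.inv_ne d2
          tauto
        simp only [this]
      by_cases a4 : d = G.inv d2
      · rw [a4, Equiv.swap_apply_right, ye2]
        have : ¬ (d1 ∈ (A \ {d1, d2}) \ E ∧ f d1 = k) := by
          rw [hsub]
          tauto
        rw [if_neg this, ite_self]
      rw [Equiv.swap_apply_of_ne_of_ne a1 a4]
      by_cases a2 : d = d2
      · rw [a2, y2]
        have : ¬ (d2 ∈ (A \ {d1, d2}) \ E ∧ f d2 = k) := by
          rw [hsub]
          tauto
        rw [if_neg this, ite_self]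
      have e0 : (d ∈ A \ E ∧ f d = k) ↔ (d ∈ (A \ {d1, d2}) \ E ∧ f d = k) := by
        rw [hsub]
        tauto
      by_cases a3 : d = G.inv d1
      · rw [a3] at e0 ⊢
        rw [ye1]
        simp only [e0]
      · rw [y0 d a1 a2 a3 a4]
        simp only [e0]
    obtain ⟨W, hW⟩ := he y hysym hysum
    refine ⟨W, fun d hd => ?_⟩
    rw [hsub] at hd
    change x d = ind W (G.src d) + ind W (G.src (inv2 G d1 d2 d))
    have w1 := hW _ (hcl _ m1)
    have w2 := hW _ m2
    rw [ye1, tgt_inv, h.s1] at w1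
    rw [y2, h.s2] at w2
    change x (G.inv d1) = ind W (G.src (G.inv d1)) + ind W v at w1
    change 0 = ind W v + ind W (G.src (G.inv d2)) at w2
    have w3 : ind W v = ind W (G.src (G.inv d2)) := by
      have := CharTwo.add_self_eq_zero (ind W (G.src (G.inv d2)))
      exact add_right_cancel (w2.symm.trans this.symm)
    by_cases a3 : d = G.inv d1
    · rw [a3, inv2_e1 h.hne, ← w3]
      exact w1
    by_cases a4 : d = G.inv d2
    · rw [a4, inv2_e2 h.h12 h.hne, ← w3, hx12, add_comm]
      exact w1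
    rw [inv2_other hd.2.1 hd.2.2 a3 a4, ← y0 d hd.2.1 hd.2.2 a3 a4]
    exact hW d hd.1

theorem TwoAt.pe' (hm : T_MONO) (h : TwoAt G A v d1 d2) (hp : G.PE A) :
    (G2 G d1 d2 h.h12 h.hne).PE (A \ {d1, d2}) := by
  obtain ⟨E, hE, hc, hp⟩ := hp
  by_cases hn : d1 ∈ E ∨ d2 ∈ E
  · -- the exceptional edge is at `v`
    set E1 : Finset D := {d1, G.inv d1} ∪ {d2, G.inv d2} with hE1
    have hEE1 : E ⊆ E1 := by
      rcases hn with h1 | h1
      · have h2 : {d1, G.inv d1} ⊆ E := by
          intro d hd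
          rw [mem_insert, mem_singleton] at hd
          rcases hd with rfl | rfl
          · exact h1
          · exact hE _ h1
        have h3 : ({d1, G.inv d1} : Finset D).card = 2 := card_pair (G.inv_ne d1).symm
        rw [← eq_of_subset_of_card_le h2 (by rw [h3]; exact hc)]
        exact subset_union_left
      · have h2 : {d2, G.inv d2} ⊆ E := by
          intro d hd
          rw [mem_insert, mem_singleton] at hd
          rcases hd with rfl | rfl
          · exact h1
          · exact hE _ h1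
        have h3 : ({d2, G.inv d2} : Finset D).card = 2 := card_pair (G.inv_ne d2).symm
        rw [← eq_of_subset_of_card_le h2 (by rw [h3]; exact hc)]
        exact subset_union_right
    have hclE1 : G.Cl E1 := (cl_pair d1).union (cl_pair d2)
    have hpB : G.Pl (A \ E1) := hm V D G (A \ E) (A \ E1) (h.cl.sdiff hE) (h.cl.sdiff hclE1)
      (sdiff_subset_sdiff (Subset.refl _) hEE1) hp
    refine ⟨{G.inv d1, G.inv d2}, ?_, ?_, ?_⟩
    · intro d hd
      rw [mem_insert, mem_singleton] at hd ⊢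
      change inv2 G d1 d2 d = _ ∨ inv2 G d1 d2 d = _
      rcases hd with rfl | rfl
      · rw [inv2_e1 h.hne]
        exact Or.inr rfl
      · rw [inv2_e2 h.h12 h.hne]
        exact Or.inl rfl
    · exact card_le_two
    · have h4 : (A \ {d1, d2}) \ {G.inv d1, G.inv d2} = A \ E1 := by
        ext d
        rw [hE1]
        simp only [mem_sdiff, mem_insert, mem_singleton, mem_union]
        tauto
      rw [h4]
      apply pl_congr (G := G) (G' := G2 G d1 d2 h.h12 h.hne) rfl (h.cl.sdiff hclE1) _ hpB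
      intro d hd
      rw [mem_sdiff, hE1] at hd
      simp only [mem_insert, mem_singleton, mem_union, not_or] at hd
      exact inv2_other hd.2.1.1 hd.2.2.1 hd.2.1.2 hd.2.2.2
  · push Not at hn
    refine ⟨E, ?_, hc, h.pl' hE hn.1 hn.2 hp⟩
    intro d hd
    change inv2 G d1 d2 d ∈ E
    rw [inv2_other]
    · exact hE _ hd
    · rintro rfl
      exact hn.1 hd
    · rintro rfl
      exact hn.2 hd
    · rintro rfl
      exact hn.1 ((hE.mem_iff).1 hd)
    · rintro rfl
      exact hn.2 ((hE.mem_iff).1 hd)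

end Two

/-! ### A loop -/

/-- a vertex which carries only a loop -/
theorem loop_cov {G : DG V D} {A : Finset D} {v : V} {d1 : D} (m1 : d1 ∈ A)
    (hcl : G.Cl A) (s1 : G.src d1 = v) (s2 : G.src (G.inv d1) = v)
    (only : ∀ d ∈ A, G.src d = v → d = d1 ∨ d = G.inv d1) {lam : D → ℕ}
    (hl : G.Cov (A \ {d1, G.inv d1}) lam) : ∃ lam, G.Cov A lam := by
  obtain ⟨hp, hb⟩ := hl
  set mu : D → ℕ := fun d => if d = d1 then 0 else if d = G.inv d1 then 1 else lam d with hmu
  have hne := G.inv_ne d1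
  have mu1 : mu d1 = 0 := by simp [hmu]
  have mu2 : mu (G.inv d1) = 1 := by simp [hmu, hne]
  have mu3 : ∀ d, d ≠ d1 → d ≠ G.inv d1 → mu d = lam d := by
    intro d n1 n2
    simp [hmu, n1, n2]
  have mu4 : ∀ d, d ≠ d1 → d ≠ G.inv d1 → mu (G.inv d) = lam (G.inv d) := by
    intro d n1 n2
    apply mu3
    · intro h
      exact n2 (by rw [← h, G.inv_inv])
    · intro h
      exact n1 (inv_inj h)
  refine ⟨mu, ?_, ?_⟩
  · intro d hd
    by_cases a1 : d = d1
    · rw [a1, mu1, mu2]
      decide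
    by_cases a2 : d = G.inv d1
    · rw [a2, mu2, G.inv_inv, mu1]
      decide
    rw [mu3 d a1 a2, mu4 d a1 a2]
    exact hp d (by simp [hd, a1, a2])
  · intro w k
    by_cases hwv : w = v
    · subst hwv
      have e1 : (sel A fun d => G.src d = w ∧ mu d = k) =
          sel {d1, G.inv d1} (fun d => mu d = k) := by
        apply sel_congr
        intro d
        rw [mem_insert, mem_singleton]
        constructor
        · rintro ⟨x1, x2, x3⟩
          exact ⟨only d x1 x2, x3⟩
        · rintro ⟨x1 | x1, x2⟩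
          · rw [x1] at x2 ⊢
            exact ⟨m1, s1, x2⟩
          · rw [x1] at x2 ⊢
            exact ⟨hcl _ m1, s2, x2⟩
      have e2 : (sel A fun d => G.src d = w ∧ mu (G.inv d) = k) =
          sel {d1, G.inv d1} (fun d => mu (G.inv d) = k) := by
        apply sel_congr
        intro d
        rw [mem_insert, mem_singleton]
        constructor
        · rintro ⟨x1, x2, x3⟩
          exact ⟨only d x1 x2, x3⟩
        · rintro ⟨x1 | x1, x2⟩
          · rw [x1] at x2 ⊢
            exact ⟨m1, s1, x2⟩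
          · rw [x1] at x2 ⊢
            exact ⟨hcl _ m1, s2, x2⟩
      rw [e1, e2]
      exact (card_sel_inv (cl_pair d1) (fun d => mu d = k)).symm
    · have h1 := hb w k
      have n1 : ∀ d, G.src d = w → d ≠ d1 ∧ d ≠ G.inv d1 := by
        intro d hs
        refine ⟨?_, ?_⟩
        · rintro rfl
          exact hwv (hs.symm.trans s1)
        · rintro rfl
          exact hwv (hs.symm.trans s2)
      have e1 : (sel A fun d => G.src d = w ∧ mu d = k) =
          sel (A \ {d1, G.inv d1}) (fun d => G.src d = w ∧ lam d = k) := by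
        apply sel_congr
        intro d
        simp only [mem_sdiff, mem_insert, mem_singleton, not_or]
        constructor
        · rintro ⟨x1, x2, x3⟩
          have x4 := n1 d x2
          rw [mu3 d x4.1 x4.2] at x3
          exact ⟨⟨x1, x4⟩, x2, x3⟩
        · rintro ⟨⟨x1, x4⟩, x2, x3⟩
          rw [mu3 d x4.1 x4.2]
          exact ⟨x1, x2, x3⟩
      have e2 : (sel A fun d => G.src d = w ∧ mu (G.inv d) = k) =
          sel (A \ {d1, G.inv d1}) (fun d => G.src d = w ∧ lam (G.inv d) = k) := by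
        apply sel_congr
        intro d
        simp only [mem_sdiff, mem_insert, mem_singleton, not_or]
        constructor
        · rintro ⟨x1, x2, x3⟩
          have x4 := n1 d x2
          rw [mu4 d x4.1 x4.2] at x3
          exact ⟨⟨x1, x4⟩, x2, x3⟩
        · rintro ⟨⟨x1, x4⟩, x2, x3⟩
          rw [mu4 d x4.1 x4.2]
          exact ⟨x1, x2, x3⟩
      rw [e1, e2]
      exact h1

/-- removing a loop does not change the cuts -/
theorem loop_bl {G : DG V D} {A : Finset D} {d1 : D} (hs : G.src (G.inv d1) = G.src d1)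
    (hb : G.BL A) : G.BL (A \ {d1, G.inv d1}) := by
  intro W
  have : G.cut (A \ {d1, G.inv d1}) W = G.cut A W := by
    ext d
    rw [mem_cut, mem_cut]
    simp only [mem_sdiff, mem_insert, mem_singleton, not_or]
    constructor
    · rintro ⟨⟨h1, _⟩, h2⟩
      exact ⟨h1, h2⟩
    · rintro ⟨h1, h2, h3⟩
      refine ⟨⟨h1, ?_, ?_⟩, h2, h3⟩
      · rintro rfl
        unfold tgt at h3
        rw [hs] at h3
        exact h3 h2
      · rintro rfl
        rw [tgt_inv] at h3
        rw [hs] at h2
        exact h3 h2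
  rw [this]
  exact hb W

/-! ### All degrees zero or three: restriction -/

section Res

variable (G : DG V D) (A : Finset D) (hcl : G.Cl A)
  (hdeg : ∀ v, (sel A fun d => G.src d = v).card = 0 ∨ (sel A fun d => G.src d = v).card = 3)

/-- vertices of degree three -/
abbrev V3 (G : DG V D) (A : Finset D) : Type := {v : V // (sel A fun d => G.src d = v).card = 3}

include hdeg in
theorem deg3 {d : D} (hd : d ∈ A) : (sel A fun c => G.src c = G.src d).card = 3 := by
  refine (hdeg (G.src d)).resolve_left ?_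
  intro h
  rw [card_eq_zero] at h
  have : d ∈ sel A fun c => G.src c = G.src d := mem_sel.2 ⟨hd, rfl⟩
  rw [h] at this
  simp at this

/-- the cubic graph on the vertices of degree three -/
noncomputable def G3 : DG (V3 G A) {d : D // d ∈ A} where
  src d := ⟨G.src d.1, deg3 G A hdeg d.2⟩
  inv d := ⟨G.inv d.1, hcl _ d.2⟩
  inv_inv _ := Subtype.ext (G.inv_inv _)
  inv_ne d := fun h => G.inv_ne d.1 (congrArg Subtype.val h)

/-- cardinality of a selection in the restricted type -/
theorem card_sel_sub (q : D → Prop) :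
    (sel (univ : Finset {d : D // d ∈ A}) fun d => q d.1).card = (sel A q).card := by
  have : sel A q = (sel (univ : Finset {d : D // d ∈ A}) fun d => q d.1).map
      (Function.Embedding.subtype _) := by
    ext d
    simp only [mem_sel, mem_map, mem_univ, true_and, Function.Embedding.coe_subtype]
    exact ⟨fun h => ⟨⟨d, h.1⟩, h.2, rfl⟩, fun ⟨d', h1, h2⟩ => h2 ▸ ⟨d'.2, h1⟩⟩
  rw [this, card_map]

theorem g3_cub : (G3 G A hcl hdeg).Cub := by
  intro v
  have h1 : (sel (univ : Finset {d : D // d ∈ A}) fun d => (G3 G A hcl hdeg).src d = v) =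
      sel univ (fun d : {d : D // d ∈ A} => G.src d.1 = v.1) := by
    apply sel_congr
    intro d
    simp only [mem_univ, true_and]
    exact ⟨fun h => congrArg Subtype.val h, fun h => Subtype.ext h⟩
  rw [h1, card_sel_sub A (fun d => G.src d = v.1)]
  exact v.2

theorem g3_bl (hb : G.BL A) : (G3 G A hcl hdeg).BL univ := by
  intro W hW
  apply hb (W.map (Function.Embedding.subtype _))
  rw [← hW]
  have h1 : (G3 G A hcl hdeg).cut univ W = sel (univ : Finset {d : D // d ∈ A}) (fun d =>
      (fun d => G.src d ∈ W.map (Function.Embedding.subtype _) ∧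
        G.tgt d ∉ W.map (Function.Embedding.subtype _)) d.1) := by
    apply sel_congr
    intro d
    have e : ∀ c : {d : D // d ∈ A}, (G3 G A hcl hdeg).src c ∈ W ↔
        G.src c.1 ∈ W.map (Function.Embedding.subtype _) := by
      intro c
      rw [mem_map]
      constructor
      · intro h
        exact ⟨_, h, rfl⟩
      · rintro ⟨v, hv, h⟩
        have : v = (G3 G A hcl hdeg).src c := Subtype.ext h
        rwa [← this]
    have e1 := e d
    have e2 := e ((G3 G A hcl hdeg).inv d)
    simp only [mem_univ, true_and]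
    rw [e1]
    unfold tgt
    rw [e2]
    rfl
  rw [h1, card_sel_sub A (fun d => G.src d ∈ W.map (Function.Embedding.subtype _) ∧
        G.tgt d ∉ W.map (Function.Embedding.subtype _))]
  rfl

/-- set difference with the classical decidability instance -/
noncomputable def sd {T : Type} (A B : Finset T) : Finset T := A \ B

theorem mem_sd {T : Type} {A B : Finset T} {d : T} : d ∈ sd A B ↔ d ∈ A ∧ d ∉ B := mem_sdiff

theorem pe_intro {V D : Type} [Fintype V] [Fintype D] {G : DG V D} (E : Finset D)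
    (h1 : G.Cl E) (h2 : E.card ≤ 2) (h3 : G.Pl (sd univ E)) : G.PE univ := ⟨E, h1, h2, h3⟩

/-- a rotation fixed off `B` -/
theorem exists_perm {B : Finset D} (hB : B ⊆ A) {s : Equiv.Perm D} (hs : ∀ c ∈ B, s c ∈ B) :
    ∃ s' : Equiv.Perm {d : D // d ∈ A}, ∀ d : {d : D // d ∈ A}, d.1 ∈ B → (s' d).1 = s d.1 := by
  have h1 : ∀ d, s d ∈ B ↔ d ∈ B := by
    intro d
    constructor
    · intro h
      have h2 : B.image s = B := by
        apply eq_of_subset_of_card_le
        · intro c hc
          obtain ⟨c', hc', rfl⟩ := mem_image.1 hc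
          exact hs c' hc'
        · rw [card_image_of_injective _ s.injective]
      rw [← h2] at h
      obtain ⟨c, hc, hcd⟩ := mem_image.1 h
      rw [← s.injective hcd]
      exact hc
    · exact hs d
  set s1 : Equiv.Perm {d : D // d ∈ B} := s.subtypePerm h1 with hs1
  set s2 : Equiv.Perm D := Equiv.Perm.ofSubtype s1 with hs2
  have h2 : ∀ d ∈ B, s2 d = s d := by
    intro d hd
    rw [hs2, Equiv.Perm.ofSubtype_apply_of_mem _ hd]
    rfl
  have h3 : ∀ d, d ∉ B → s2 d = d := by
    intro d hd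
    exact Equiv.Perm.ofSubtype_apply_of_not_mem _ hd
  have h4 : ∀ d, s2 d ∈ A ↔ d ∈ A := by
    intro d
    by_cases hd : d ∈ B
    · rw [h2 d hd]
      exact ⟨fun _ => hB hd, fun _ => hB (hs d hd)⟩
    · rw [h3 d hd]
  refine ⟨s2.subtypePerm h4, fun d hd => ?_⟩
  exact h2 _ hd

theorem g3_pe (hp : G.PE A) : (G3 G A hcl hdeg).PE univ := by
  obtain ⟨E, hE, hc, s, f, ⟨hr1, hr2⟩, hf, he⟩ := hp
  have hB : A \ E ⊆ A := sdiff_subset
  obtain ⟨s', hs'⟩ := exists_perm A hB (s := s) (fun d hd => (hr1 d hd).1)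
  set E' : Finset {d : D // d ∈ A} := sel univ (fun d => d.1 ∈ E) with hE'
  have memE' : ∀ d : {d : D // d ∈ A}, d ∈ sd (univ : Finset {d : D // d ∈ A}) E' ↔
      d.1 ∈ A \ E := by
    intro d
    rw [mem_sd, mem_sdiff, hE', mem_sel]
    simp [d.2]
  refine pe_intro E' ?_ ?_ ⟨s', fun d => f d.1, ⟨?_, ?_⟩, ?_, ?_⟩
  · intro d hd
    rw [hE', mem_sel] at hd ⊢
    exact ⟨mem_univ _, hE _ hd.2⟩
  · rw [hE', card_sel_sub A (fun d => d ∈ E)]
    refine le_trans (card_le_card ?_) hc
    intro d hd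
    exact (mem_sel.1 hd).2
  · intro d hd
    have hd' := (memE' d).1 hd
    have h1 := hr1 _ hd'
    refine ⟨(memE' _).2 ?_, Subtype.ext ?_⟩
    · rw [hs' d hd']
      exact h1.1
    · change G.src (s' d).1 = G.src d.1
      rw [hs' d hd']
      exact h1.2
  · intro d hd d' hd' h
    have h1 := (memE' d).1 hd
    have h2 := (memE' d').1 hd'
    have h3 := hr2 _ h1 _ h2 (congrArg Subtype.val h)
    obtain ⟨i, hi⟩ := h3.exists_nat_pow_eq
    refine ⟨(i : ℤ), ?_⟩
    rw [zpow_natCast]
    have h5 : ∀ i : ℕ, ((s' ^ i) d).1 = (s ^ i) d.1 ∧ (s ^ i) d.1 ∈ A \ E := by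
      intro i
      induction i with
      | zero => exact ⟨rfl, h1⟩
      | succ i ih =>
        rw [pow_succ', pow_succ', Equiv.Perm.mul_apply, Equiv.Perm.mul_apply]
        have h6 : ((s' ^ i) d).1 ∈ A \ E := by
          rw [ih.1]
          exact ih.2
        rw [hs' _ h6, ih.1]
        exact ⟨rfl, (hr1 _ ih.2).1⟩
    apply Subtype.ext
    rw [(h5 i).1, hi]
  · intro d hd
    have h1 := (memE' d).1 hd
    have h2 : G.inv d.1 ∈ A \ E := (hcl.sdiff hE) _ h1
    have h3 := hs' ((G3 G A hcl hdeg).inv d) h2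
    change f (s' ((G3 G A hcl hdeg).inv d)).1 = f d.1
    rw [h3]
    exact hf _ h1
  · intro x hx hk
    obtain ⟨W, hW⟩ := he (fun d => if h : d ∈ A then x ⟨d, h⟩ else 0) (by
      intro d
      by_cases h1 : d ∈ A
      · simp only [dif_pos h1, dif_pos (hcl _ h1)]
        exact hx ⟨d, h1⟩
      · have h2 : G.inv d ∉ A := fun h => h1 (hcl.mem_iff.1 h)
        simp only [dif_neg h1, dif_neg h2]) (by
      intro k
      refine Eq.trans ?_ (hk k)
      have h1 : sel (A \ E) (fun d => f d = k) =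
          (sel (sd (univ : Finset {d : D // d ∈ A}) E') fun d => f d.1 = k).map
            (Function.Embedding.subtype _) := by
        ext d
        simp only [mem_sel, mem_map, Function.Embedding.coe_subtype]
        constructor
        · rintro ⟨h1, h2⟩
          exact ⟨⟨d, hB h1⟩, ⟨(memE' _).2 h1, h2⟩, rfl⟩
        · rintro ⟨d', ⟨h1, h2⟩, rfl⟩
          exact ⟨(memE' _).1 h1, h2⟩
      rw [h1, sum_map]
      apply sum_congr rfl
      intro d _
      simp only [Function.Embedding.coe_subtype, dif_pos d.2])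
    refine ⟨sel univ (fun v => v.1 ∈ W), fun d hd => ?_⟩
    have h1 := hW d.1 ((memE' d).1 hd)
    simp only [dif_pos d.2] at h1
    have h2 : ∀ c : {d : D // d ∈ A}, ind (sel univ fun v : V3 G A => v.1 ∈ W)
        ((G3 G A hcl hdeg).src c) = ind W (G.src c.1) := by
      intro c
      unfold ind
      have : (G3 G A hcl hdeg).src c ∈ sel univ (fun v : V3 G A => v.1 ∈ W) ↔ G.src c.1 ∈ W := by
        rw [mem_sel]
        exact ⟨fun h => h.2, fun h => ⟨mem_univ _, h⟩⟩
      simp only [this]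
    unfold tgt
    rw [h2 d, h2 ((G3 G A hcl hdeg).inv d)]
    exact h1

theorem g3_cov {lam : {d : D // d ∈ A} → ℕ} (hl : (G3 G A hcl hdeg).Cov univ lam) :
    ∃ lam, G.Cov A lam := by
  obtain ⟨hp, hb⟩ := hl
  refine ⟨fun d => if h : d ∈ A then lam ⟨d, h⟩ else 0, ?_, ?_⟩
  · intro d hd
    simp only [dif_pos hd, dif_pos (hcl _ hd)]
    exact hp ⟨d, hd⟩ (mem_univ _)
  · intro v k
    rcases hdeg v with h0 | h3
    · rw [card_eq_zero] at h0
      have e : ∀ q : D → Prop, (sel A fun d => G.src d = v ∧ q d) = ∅ := by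
        intro q
        ext d
        rw [mem_sel]
        simp only [notMem_empty, iff_false]
        rintro ⟨h1, h2, _⟩
        have : d ∈ sel A fun d => G.src d = v := mem_sel.2 ⟨h1, h2⟩
        rw [h0] at this
        simp at this
      rw [e, e]
    · have h1 := hb ⟨v, h3⟩ k
      have e1 : (sel A fun d => G.src d = v ∧ (if h : d ∈ A then lam ⟨d, h⟩ else 0) = k).card =
          (sel (univ : Finset {d : D // d ∈ A}) fun d =>
            (G3 G A hcl hdeg).src d = ⟨v, h3⟩ ∧ lam d = k).card := by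
        rw [← card_sel_sub A (fun d => G.src d = v ∧ (if h : d ∈ A then lam ⟨d, h⟩ else 0) = k)]
        congr 1
        apply sel_congr
        intro d
        simp only [mem_univ, true_and, dif_pos d.2]
        constructor
        · rintro ⟨x1, x2⟩
          exact ⟨Subtype.ext x1, x2⟩
        · rintro ⟨x1, x2⟩
          exact ⟨congrArg Subtype.val x1, x2⟩
      have e2 : (sel A fun d => G.src d = v ∧
          (if h : G.inv d ∈ A then lam ⟨G.inv d, h⟩ else 0) = k).card =
          (sel (univ : Finset {d : D // d ∈ A}) fun d =>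
            (G3 G A hcl hdeg).src d = ⟨v, h3⟩ ∧ lam ((G3 G A hcl hdeg).inv d) = k).card := by
        rw [← card_sel_sub A (fun d => G.src d = v ∧
          (if h : G.inv d ∈ A then lam ⟨G.inv d, h⟩ else 0) = k)]
        congr 1
        apply sel_congr
        intro d
        simp only [mem_univ, true_and, dif_pos (hcl _ d.2)]
        constructor
        · rintro ⟨x1, x2⟩
          exact ⟨Subtype.ext x1, x2⟩
        · rintro ⟨x1, x2⟩
          exact ⟨congrArg Subtype.val x1, x2⟩
      rw [e1, e2]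
      exact h1

end Res

end Sup

/-- **Module SUP**. -/
theorem t_sup (hm : T_MONO) : T_SUP := by
  intro V D _ _ G A hcl hbl hdeg hpe hyp
  -- induction on the number of darts, for all involutions
  obtain ⟨n, hn⟩ : ∃ n, n = A.card := ⟨_, rfl⟩
  induction n using Nat.strong_induction_on generalizing G A with
  | _ n ih =>
    by_cases h2 : ∃ v, (sel A fun d => G.src d = v).card = 2
    · obtain ⟨v, hv⟩ := h2
      obtain ⟨d1, d2, h12, hset⟩ := card_eq_two.1 hv
      have hmem : ∀ d, (d ∈ A ∧ G.src d = v) ↔ (d = d1 ∨ d = d2) := by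
        intro d
        rw [← mem_sel (A := A) (q := fun d => G.src d = v), hset, mem_insert, mem_singleton]
      have m1 := (hmem d1).2 (Or.inl rfl)
      have m2 := (hmem d2).2 (Or.inr rfl)
      have hcard : (A \ {d1, d2}).card < A.card := by
        apply card_lt_card
        rw [ssubset_iff_of_subset sdiff_subset]
        exact ⟨d1, m1.1, by simp⟩
      by_cases hloop : d2 = G.inv d1
      · rw [hloop] at m2 hmem hcard
        have hcl' : G.Cl (A \ {d1, G.inv d1}) := DG.cl_sdiff_pair hcl d1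
        obtain ⟨lam, hlam⟩ := ih _ (hn ▸ hcard) G (A \ {d1, G.inv d1}) hcl'
          (Sup.loop_bl (m2.2.trans m1.2.symm) hbl)
          (fun w => le_trans (card_le_card (by
            intro d hd
            rw [mem_sel] at hd ⊢
            exact ⟨(mem_sdiff.1 hd.1).1, hd.2⟩)) (hdeg w))
          (Sup.pe_mono hm hcl hcl' sdiff_subset hpe)
          (fun V' D' _ _ G' hc => hyp V' D' G' (le_trans hc hcard.le)) rfl
        exact Sup.loop_cov m1.1 hcl m1.2 m2.2 (fun d hd hs => (hmem d).1 ⟨hd, hs⟩) hlam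
      · have htwo : Sup.TwoAt G A v d1 d2 := ⟨hcl, m1.1, m2.1, m1.2, m2.2,
          fun d hd hs => (hmem d).1 ⟨hd, hs⟩, h12, hloop⟩
        obtain ⟨lam, hlam⟩ := ih _ (hn ▸ hcard) (Sup.G2 G d1 d2 h12 hloop) (A \ {d1, d2})
          htwo.cl' (htwo.bl' hbl)
          (fun w => le_trans (card_le_card (by
            intro d hd
            rw [mem_sel] at hd ⊢
            exact ⟨(mem_sdiff.1 hd.1).1, hd.2⟩)) (hdeg w))
          (htwo.pe' hm hpe)
          (fun V' D' _ _ G' hc => hyp V' D' G' (le_trans hc hcard.le)) rfl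
        exact htwo.cov' hlam
    · push Not at h2
      have h03 : ∀ v, (sel A fun d => G.src d = v).card = 0 ∨
          (sel A fun d => G.src d = v).card = 3 := by
        intro v
        have h1 : (sel A fun d => G.src d = v).card ≠ 1 := by
          intro h1
          obtain ⟨d, hd⟩ := card_eq_one.1 h1
          have hmem : ∀ c, (c ∈ A ∧ G.src c = v) ↔ c = d := by
            intro c
            rw [← mem_sel (A := A) (q := fun d => G.src d = v), hd, mem_singleton]
          have hd' := (hmem d).2 rfl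
          apply hbl {v}
          rw [card_eq_one]
          refine ⟨d, ?_⟩
          ext c
          rw [DG.mem_cut, mem_singleton, mem_singleton, mem_singleton, ← hmem c]
          constructor
          · rintro ⟨x1, x2, _⟩
            exact ⟨x1, x2⟩
          · rintro ⟨x1, x2⟩
            refine ⟨x1, x2, ?_⟩
            intro h3
            have h4 := (hmem c).1 ⟨x1, x2⟩
            have h5 := (hmem (G.inv c)).1 ⟨hcl _ x1, h3⟩
            exact G.inv_ne c (h5.trans h4.symm)
        have h3 := h2 v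
        have h4 := hdeg v
        omega
      obtain ⟨lam, hlam⟩ := hyp (Sup.V3 G A) {d : D // d ∈ A} (Sup.G3 G A hcl h03) (by simp)
        (Sup.g3_cub G A hcl h03) (Sup.g3_bl G A hcl h03 hbl) (Sup.g3_pe G A hcl h03 hpe)
      exact Sup.g3_cov G A hcl h03 hlam

end Pool.Agent.H69.OC
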