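import Pool.Agent.H69.OC.Targets
import Pool.Agent.H73.TF.A123

/-!
# Maps on the torus (module TORC)
-/

set_option autoImplicit false
set_option linter.unusedSectionVars false
open scoped Classical
open Finset

namespace Pool.Agent.H69.OC

namespace Torc

open DG
open Pool.Agent.H7.TF (nc conn comps Planar)

variable {V D : Type} [Fintype V] [Fintype D] {G : DG V D}

/-- the point `x` is skipped -/
noncomputable def skip (β : Equiv.Perm D) (x : D) : Equiv.Perm D := Equiv.swap x (β x) * β

theorem skip_self (β : Equiv.Perm D) (x : D) : skip β x x = x := by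
  simp [skip]

theorem skip_fix {β : Equiv.Perm D} {x z : D} (hz : β z = z) : skip β x z = z := by
  unfold skip
  rw [Equiv.Perm.mul_apply, hz]
  by_cases h1 : z = x
  · subst h1
    rw [hz, Equiv.swap_self]
    rfl
  · apply Equiv.swap_apply_of_ne_of_ne h1
    intro h2
    apply h1
    apply β.injective
    rw [hz]
    exact h2

theorem nc_skip {β : Equiv.Perm D} {x : D} (h : β x ≠ x) : nc (skip β x) = nc β + 1 := by
  unfold skip
  exact Pool.Agent.H73.TF.nc_swap_mul_of_same β (fun h1 => h h1.symm) ⟨1, by simp⟩

theorem skip_same {β : Equiv.Perm D} {x z z' : D} (hz : z ≠ x) (hz' : z' ≠ x)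
    (h : β.SameCycle z z') : (skip β x).SameCycle z z' := by
  obtain ⟨n, hn⟩ := h.exists_nat_pow_eq
  clear h
  induction n using Nat.strong_induction_on generalizing z with
  | _ n ih =>
    rcases Nat.eq_zero_or_pos n with h0 | h0
    · subst h0
      have : z = z' := by simpa using hn
      rw [this]
    · by_cases hw : β z = x
      · have h2 : 2 ≤ n := by
          by_contra hlt
          have : n = 1 := by omega
          rw [this, pow_one] at hn
          exact hz' (hn ▸ hw)
        have h3 : β x ≠ x := by
          intro h4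
          apply hz
          apply β.injective
          rw [hw, h4]
        have h4 : skip β x z = β x := by
          unfold skip
          rw [Equiv.Perm.mul_apply, hw, Equiv.swap_apply_left]
        have h5 := ih (n - 2) (by omega) h3 (by
          rw [← hn]
          have : n = (n - 2) + 1 + 1 := by omega
          conv_rhs => rw [this]
          rw [pow_succ, pow_succ, Equiv.Perm.mul_apply, Equiv.Perm.mul_apply, hw])
        rw [← h4] at h5
        exact (Equiv.Perm.sameCycle_apply_left).1 h5
      · have h4 : skip β x z = β z := by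
          unfold skip
          rw [Equiv.Perm.mul_apply]
          apply Equiv.swap_apply_of_ne_of_ne hw
          intro h
          exact hz (β.injective h)
        have h5 := ih (n - 1) (by omega) hw (by
          rw [← hn]
          have : n = (n - 1) + 1 := by omega
          conv_rhs => rw [this]
          rw [pow_succ, Equiv.Perm.mul_apply])
        rw [← h4] at h5
        exact (Equiv.Perm.sameCycle_apply_left).1 h5

theorem src_swap {a b : D} (h : G.src a = G.src b) (w : D) :
    G.src (Equiv.swap a b w) = G.src w := by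
  by_cases h1 : w = a
  · rw [h1, Equiv.swap_apply_left, h]
  by_cases h2 : w = b
  · rw [h2, Equiv.swap_apply_right, h]
  rw [Equiv.swap_apply_of_ne_of_ne h1 h2]

theorem src_skip {β : Equiv.Perm D} (h : ∀ d, G.src (β d) = G.src d) (x d : D) :
    G.src (skip β x d) = G.src d := by
  unfold skip
  rw [Equiv.Perm.mul_apply, src_swap (h x).symm, h]

/-- all faces are cycles -/
theorem faces_cov {s i : Equiv.Perm D} (hr : G.Rot univ s) (hi : ∀ d, i d = G.inv d)
    (hno : ∀ d, ¬ (s * i).SameCycle d (G.inv d)) : ∃ lam, G.Cov univ lam := by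
  set Q := Quotient (Equiv.Perm.SameCycle.setoid (s * i)) with hQ
  have : Fintype Q := Fintype.ofFinite Q
  set lam : D → ℕ := fun d =>
    ((Fintype.equivFin Q) (Quotient.mk (Equiv.Perm.SameCycle.setoid (s * i)) d)).1 with hlam
  have hiff : ∀ d d', lam d = lam d' ↔ (s * i).SameCycle d d' := by
    intro d d'
    constructor
    · intro h
      have h1 := (Fintype.equivFin Q).injective (Fin.ext h)
      exact Quotient.exact h1
    · intro h
      have h1 : Quotient.mk (Equiv.Perm.SameCycle.setoid (s * i)) d =
          Quotient.mk (Equiv.Perm.SameCycle.setoid (s * i)) d' := Quotient.sound h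
      simp only [hlam, h1]
  have hs : ∀ d, lam (s d) = lam (G.inv d) := by
    intro d
    rw [hiff]
    have : s d = (s * i) (G.inv d) := by
      rw [Equiv.Perm.mul_apply, hi, G.inv_inv]
    rw [this]
    exact Equiv.Perm.sameCycle_apply_left.2 (Equiv.Perm.SameCycle.refl _ _)
  refine ⟨lam, fun d _ h => hno d ((hiff _ _).1 h), fun v k => ?_⟩
  symm
  apply card_equiv s
  intro d
  rw [mem_sel, mem_sel, hs, (hr.1 d (mem_univ _)).2]
  simp

section Main

variable {s i : Equiv.Perm D} {e : D}

/-- skipping the edge `e` -/
noncomputable def s2 (G : DG V D) (s : Equiv.Perm D) (e : D) : Equiv.Perm D :=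
  skip (skip s e) (G.inv e)

theorem s2_e : s2 G s e e = e := skip_fix (skip_self s e)

theorem s2_e' : s2 G s e (G.inv e) = G.inv e := skip_self _ _

theorem src_s2 (hr : G.Rot univ s) (d : D) : G.src (s2 G s e d) = G.src d :=
  src_skip (fun d => src_skip (fun d => (hr.1 d (mem_univ _)).2) e d) (G.inv e) d

theorem s2_same (hr : G.Rot univ s) {z z' : D} (h1 : z ≠ e) (h2 : z ≠ G.inv e) (h3 : z' ≠ e)
    (h4 : z' ≠ G.inv e) (h : G.src z = G.src z') : (s2 G s e).SameCycle z z' :=
  skip_same h2 h4 (skip_same h1 h3 (hr.2 z (mem_univ _) z' (mem_univ _) h))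

/-- no vertex of degree one -/
theorem s_ne (hr : G.Rot univ s) (hb : G.BL univ) (d : D) : s d ≠ d := by
  intro h
  have h1 : ∀ c, G.src c = G.src d → c = d := by
    intro c hc
    obtain ⟨n, hn⟩ := hr.2 d (mem_univ _) c (mem_univ _) hc.symm
    rw [Equiv.Perm.zpow_apply_eq_self_of_apply_eq_self h n] at hn
    exact hn.symm
  apply hb {G.src d}
  rw [card_eq_one]
  refine ⟨d, ?_⟩
  ext c
  rw [mem_cut, mem_singleton, mem_singleton, mem_singleton]
  constructor
  · rintro ⟨_, h2, _⟩
    exact h1 c h2
  · rintro rfl
    exact ⟨mem_univ _, rfl, fun h2 => G.inv_ne c (h1 _ h2)⟩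

/-- counting cycles -/
theorem counts (hr : G.Rot univ s) (hb : G.BL univ) (hi : ∀ d, i d = G.inv d)
    (hsame : (s * i).SameCycle e (G.inv e)) :
    nc (s2 G s e) = nc s + 2 ∧ nc (i * Equiv.swap e (G.inv e)) = nc i + 1 ∧
      nc (s2 G s e * (i * Equiv.swap e (G.inv e))) = nc (s * i) + 3 := by
  have hne := G.inv_ne e
  have h1 : s e ≠ e := s_ne hr hb e
  have h2 : s (G.inv e) ≠ G.inv e := s_ne hr hb _
  have h3 : skip s e (G.inv e) ≠ G.inv e := by
    intro h
    unfold skip at h
    rw [Equiv.Perm.mul_apply, Equiv.swap_apply_eq_iff] at h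
    by_cases h4 : G.inv e = s e
    · rw [← h4, Equiv.swap_apply_right] at h
      have h5 : (s * i) e = e := by
        rw [Equiv.Perm.mul_apply, hi, h]
      obtain ⟨n, hn⟩ := hsame
      rw [Equiv.Perm.zpow_apply_eq_self_of_apply_eq_self h5 n] at hn
      exact hne hn.symm
    · rw [Equiv.swap_apply_of_ne_of_ne hne h4] at h
      exact h2 h
  refine ⟨?_, ?_, ?_⟩
  · unfold s2
    rw [nc_skip h3, nc_skip h1]
  · apply Pool.Agent.H73.TF.nc_mul_swap_of_same i hne.symm
    exact ⟨1, by simp [hi]⟩
  · set φ1 := s * i * Equiv.swap e (G.inv e) with hφ1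
    have k1 : nc φ1 = nc (s * i) + 1 :=
      Pool.Agent.H73.TF.nc_mul_swap_of_same (s * i) hne.symm hsame
    have a1 : φ1 e = s e := by
      rw [hφ1, Equiv.Perm.mul_apply, Equiv.swap_apply_left, Equiv.Perm.mul_apply, hi, G.inv_inv]
    have a2 : φ1 (G.inv e) = s (G.inv e) := by
      rw [hφ1, Equiv.Perm.mul_apply, Equiv.swap_apply_right, Equiv.Perm.mul_apply, hi]
    have k2 : nc (skip φ1 e) = nc φ1 + 1 := nc_skip (by rw [a1]; exact h1)
    have a3 : skip φ1 e (G.inv e) = skip s e (G.inv e) := by
      change Equiv.swap e (φ1 e) (φ1 (G.inv e)) = Equiv.swap e (s e) (s (G.inv e))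
      rw [a1, a2]
    have k3 : nc (skip (skip φ1 e) (G.inv e)) = nc (skip φ1 e) + 1 := nc_skip (by rw [a3]; exact h3)
    have e1 : s2 G s e * (i * Equiv.swap e (G.inv e)) = skip (skip φ1 e) (G.inv e) := by
      have b1 : skip (skip φ1 e) (G.inv e) =
          Equiv.swap (G.inv e) (skip φ1 e (G.inv e)) * skip φ1 e := rfl
      have b2 : skip φ1 e = Equiv.swap e (φ1 e) * φ1 := rfl
      have b3 : s2 G s e = Equiv.swap (G.inv e) (skip s e (G.inv e)) * (Equiv.swap e (s e) * s) :=
        rfl
      rw [b1, a3, b2, a1, b3, hφ1]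
      simp only [mul_assoc]
    rw [e1, k3, k2, k1]

/-- the connected components -/
theorem comps_le (hr : G.Rot univ s) (hb : G.BL univ) (hi : ∀ d, i d = G.inv d) :
    comps (s2 G s e) (i * Equiv.swap e (G.inv e)) ≤ comps s i + 2 := by
  set s' := s2 G s e with hs'
  set i' := i * Equiv.swap e (G.inv e) with hi'
  have hne := G.inv_ne e
  have ie : i' e = e := by
    rw [hi', Equiv.Perm.mul_apply, Equiv.swap_apply_left, hi, G.inv_inv]
  have ie' : i' (G.inv e) = G.inv e := by
    rw [hi', Equiv.Perm.mul_apply, Equiv.swap_apply_right, hi]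
  have io : ∀ d, d ≠ e → d ≠ G.inv e → i' d = G.inv d := by
    intro d h1 h2
    rw [hi', Equiv.Perm.mul_apply, Equiv.swap_apply_of_ne_of_ne h1 h2, hi]
  -- the class of a point fixed by both permutations
  have fixc : ∀ x, s' x = x → i' x = x → ∀ y, conn s' i' x y → y = x := by
    intro x h1 h2 y hy
    have h3 : conn s' i' ≤ Setoid.ker (fun z => z = x) := by
      refine sup_le (Pool.Agent.H73.TF.sc_le fun z => ?_) (Pool.Agent.H73.TF.sc_le fun z => ?_)
      · change (z = x) = (s' z = x)
        apply propext
        constructor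
        · rintro rfl
          exact h1
        · intro h
          apply s'.injective
          rw [h, h1]
      · change (z = x) = (i' z = x)
        apply propext
        constructor
        · rintro rfl
          exact h2
        · intro h
          apply i'.injective
          rw [h, h2]
    have h4 : (x = x) = (y = x) := h3 hy
    exact h4.mp rfl
  -- old components stay connected
  have key : ∀ x y, x ≠ e → x ≠ G.inv e → y ≠ e → y ≠ G.inv e → conn s i x y →
      conn s' i' x y := by
    intro x y hx1 hx2 hy1 hy2 hxy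
    have hec : ¬ conn s' i' x e := by
      intro h
      exact hx1 (fixc e s2_e ie x ((conn s' i').symm' h))
    have hec' : ¬ conn s' i' x (G.inv e) := by
      intro h
      exact hx2 (fixc _ s2_e' ie' x ((conn s' i').symm' h))
    set W : Finset V := sel univ (fun w => ∃ z, conn s' i' x z ∧ G.src z = w) with hW
    have memW : ∀ w, w ∈ W ↔ ∃ z, conn s' i' x z ∧ G.src z = w := by
      intro w
      rw [hW, mem_sel]
      simp
    have hin : ∀ z, z ≠ e → z ≠ G.inv e → G.src z ∈ W → conn s' i' x z := by
      intro z h1 h2 h3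
      obtain ⟨z', h4, h5⟩ := (memW _).1 h3
      have h6 : z' ≠ e := by
        rintro rfl
        exact hec h4
      have h7 : z' ≠ G.inv e := by
        rintro rfl
        exact hec' h4
      exact (conn s' i').trans' h4 (Pool.Agent.H73.TF.conn_left (s2_same hr h6 h7 h1 h2 h5))
    have hstep : ∀ z, z ≠ e → z ≠ G.inv e → G.src z ∈ W → G.tgt z ∈ W := by
      intro z h1 h2 h3
      have h4 := hin z h1 h2 h3
      rw [memW]
      refine ⟨G.inv z, ?_, rfl⟩
      rw [← io z h1 h2]
      exact (conn s' i').trans' h4 (Pool.Agent.H73.TF.conn_right ⟨1, by simp⟩)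
    have hcut : G.cut univ W = ∅ := by
      by_contra hcon
      obtain ⟨d, hd⟩ := nonempty_of_ne_empty hcon
      have hall : ∀ c ∈ G.cut univ W, c = e ∨ c = G.inv e := by
        intro c hc
        rw [mem_cut] at hc
        by_contra h
        push Not at h
        exact hc.2.2 (hstep c h.1 h.2 hc.2.1)
      apply hb W
      rw [card_eq_one]
      refine ⟨d, ?_⟩
      ext c
      rw [mem_singleton]
      constructor
      · intro hc
        have h1 := hall c hc
        have h2 := hall d hd
        rw [mem_cut] at hc hd
        rcases h1 with rfl | rfl <;> rcases h2 with rfl | rfl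
        · rfl
        · rw [tgt_inv] at hd
          exact absurd hc.2.1 hd.2.2
        · rw [tgt_inv] at hc
          exact absurd hd.2.1 hc.2.2
        · rfl
      · rintro rfl
        exact hd
    have hclosed : ∀ z, G.src z ∈ W ↔ G.tgt z ∈ W := by
      intro z
      constructor
      · intro h
        by_contra h2
        have : z ∈ G.cut univ W := mem_cut.2 ⟨mem_univ _, h, h2⟩
        rw [hcut] at this
        simp at this
      · intro h
        by_contra h2
        have : G.inv z ∈ G.cut univ W := mem_cut.2 ⟨mem_univ _, h, by rw [tgt_inv]; exact h2⟩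
        rw [hcut] at this
        simp at this
    have h3 : conn s i ≤ Setoid.ker (fun z => G.src z ∈ W) := by
      refine sup_le (Pool.Agent.H73.TF.sc_le fun z => ?_) (Pool.Agent.H73.TF.sc_le fun z => ?_)
      · change (G.src z ∈ W) = (G.src (s z) ∈ W)
        rw [(hr.1 z (mem_univ _)).2]
      · change (G.src z ∈ W) = (G.src (i z) ∈ W)
        rw [hi]
        exact propext (hclosed z)
    have h4 : (G.src x ∈ W) = (G.src y ∈ W) := h3 hxy
    have h5 : G.src x ∈ W := (memW _).2 ⟨x, (conn s' i').refl' x, rfl⟩
    exact hin y hy1 hy2 (h4.mp h5)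
  -- the injection of the components
  unfold comps
  have hfin : Nat.card (Option (Option (Quotient (conn s i)))) =
      Nat.card (Quotient (conn s i)) + 2 := by
    rw [Finite.card_option, Finite.card_option]
  rw [← hfin]
  apply Nat.card_le_card_of_injective (fun q : Quotient (conn s' i') =>
    if q.out = e then none else if q.out = G.inv e then some none else
      some (some (Quotient.mk (conn s i) q.out)))
  intro q q' h
  simp only at h
  rw [← q.out_eq, ← q'.out_eq]
  by_cases h1 : q.out = e
  · by_cases h2 : q'.out = e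
    · rw [h1, h2]
    · rw [if_pos h1, if_neg h2] at h
      by_cases h3 : q'.out = G.inv e
      · rw [if_pos h3] at h
        simp at h
      · rw [if_neg h3] at h
        simp at h
  · rw [if_neg h1] at h
    by_cases h1' : q.out = G.inv e
    · rw [if_pos h1'] at h
      by_cases h2 : q'.out = e
      · rw [if_pos h2] at h
        simp at h
      · rw [if_neg h2] at h
        by_cases h3 : q'.out = G.inv e
        · rw [h1', h3]
        · rw [if_neg h3] at h
          simp at h
    · rw [if_neg h1'] at h
      by_cases h2 : q'.out = e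
      · rw [if_pos h2] at h
        simp at h
      · rw [if_neg h2] at h
        by_cases h3 : q'.out = G.inv e
        · rw [if_pos h3] at h
          simp at h
        · rw [if_neg h3] at h
          have h4 := Option.some_injective _ (Option.some_injective _ h)
          exact Quotient.sound (key _ _ h1 h1' h2 h3 (Quotient.exact h4))

end Main

end Torc

open DG Torc in
/-- **Module TORC**. -/
theorem t_torc (hE : T_EUL) : T_TORC := by
  intro V D _ _ G s hb hr hT
  set i : Equiv.Perm D := ⟨G.inv, G.inv, G.inv_inv, G.inv_inv⟩ with hi0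
  have hi : ∀ d, i d = G.inv d := fun _ => rfl
  by_cases hno : ∀ d, ¬ (s * i).SameCycle d (G.inv d)
  · exact Or.inl (faces_cov hr hi hno)
  right
  push Not at hno
  obtain ⟨e, hsame⟩ := hno
  obtain ⟨c1, c2, c3⟩ := counts hr hb hi hsame
  have c4 := comps_le (e := e) hr hb hi
  have c5 := hT i hi
  have c6 := Pool.Agent.H73.TF.ree _ (s2 G s e) (i * Equiv.swap e (G.inv e)) rfl
  have hpl : Pool.Agent.H7.TF.Planar (s2 G s e) (i * Equiv.swap e (G.inv e)) := by
    unfold Pool.Agent.H7.TF.Planar
    omega
  have memA : ∀ d, d ∈ (univ : Finset D) \ {e, G.inv e} ↔ d ≠ e ∧ d ≠ G.inv e := by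
    intro d
    rw [mem_sdiff, mem_insert, mem_singleton, not_or]
    simp
  have hrot : G.Rot (univ \ {e, G.inv e}) (s2 G s e) := by
    constructor
    · intro d hd
      rw [memA] at hd
      refine ⟨(memA _).2 ⟨?_, ?_⟩, src_s2 hr d⟩
      · intro h
        apply hd.1
        apply (s2 G s e).injective
        rw [h, s2_e]
      · intro h
        apply hd.2
        apply (s2 G s e).injective
        rw [h, s2_e']
    · intro d hd d' hd' h
      rw [memA] at hd hd'
      exact s2_same hr hd.1 hd.2 hd'.1 hd'.2 h
  have notA : ∀ d, d ∉ (univ : Finset D) \ {e, G.inv e} → d = e ∨ d = G.inv e := by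
    intro d hd
    rw [memA] at hd
    tauto
  obtain ⟨f, hf, hEul⟩ := hE V D G (univ \ {e, G.inv e}) (cl_sdiff_pair cl_univ e) (s2 G s e)
    (i * Equiv.swap e (G.inv e)) hrot (by
      intro d hd
      rcases notA d hd with rfl | rfl
      · exact s2_e
      · exact s2_e') (by
      intro d hd
      rw [memA] at hd
      rw [Equiv.Perm.mul_apply, Equiv.swap_apply_of_ne_of_ne hd.1 hd.2, hi]) (by
      intro d hd
      rcases notA d hd with rfl | rfl
      · rw [Equiv.Perm.mul_apply, Equiv.swap_apply_left, hi, G.inv_inv]
      · rw [Equiv.Perm.mul_apply, Equiv.swap_apply_right, hi]) hpl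
  exact ⟨{e, G.inv e}, cl_pair e, card_le_two, s2 G s e, f, hrot, hf, hEul⟩

end Pool.Agent.H69.OC
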